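import Mathlib
import Pool.Agent.Lib.MP_44a246_ntS.SL2c

/-!
# The height of a span, with a basis among the generators
-/

namespace Pool.Agent.Lib.MP_44a246_ntW

open Pool.Agent.Lib.MP_44a246_nt
open Pool.Agent.Lib.MP_44a246_ntL
open Pool.Agent.Lib.MP_44a246_ntS
open Pool.Agent.Lib.MP_e52354_nt
open WithZero Module Polynomial

section

variable {κ L : Type*} [Field κ] [IsAlgClosed κ] [CharZero κ] [Field L] [Algebra κ L]

/-- the height of a span is at most the dimension times the maximal height of a generator -/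
theorem ht_sup_span_le (h : IsFF κ L) {ι γ : Type*} [Fintype ι] [DecidableEq ι]
    [Fintype γ] (v : γ → ι → L) {c : ℤ} (hc : ∀ t, ht κ (Submodule.span L {v t}) ≤ c) :
    ht κ (Finset.univ.sup fun t => Submodule.span L {v t}) ≤
      finrank L ↥(Finset.univ.sup fun t => Submodule.span L {v t} : Submodule L (ι → L)) * c := by
  classical
  have hsup : (Finset.univ.sup fun t => Submodule.span L {v t} : Submodule L (ι → L)) =
      Submodule.span L (Set.range v) := by
    rw [Finset.sup_univ_eq_iSup, ← Submodule.span_range_eq_iSup]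
  obtain ⟨τ, σ, hσ, hsp, hli⟩ := exists_linearIndependent' L v
  have : Finite τ := Finite.of_injective σ hσ
  have : Fintype τ := Fintype.ofFinite τ
  have h1 : finrank L ↥(Submodule.span L (Set.range v)) = Fintype.card τ := by
    rw [← hsp]
    exact finrank_span_eq_card hli
  have h2 : (Finset.univ.sup fun t => Submodule.span L {v t} : Submodule L (ι → L)) =
      Finset.univ.sup fun i : τ => Submodule.span L {v (σ i)} := by
    rw [hsup, ← hsp, Finset.sup_univ_eq_iSup, ← Submodule.span_range_eq_iSup]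
    rfl
  rw [hsup, h1, ← hsup, h2]
  refine (ht_finset_sup_le h _ _).trans ?_
  refine (Finset.sum_le_sum fun i _ => hc (σ i)).trans ?_
  rw [Finset.sum_const, Finset.card_univ, nsmul_eq_mul]

end

private lemma w22_a {M : Type*} [CommMonoid M] (a e : M) :
    (a ^ 2 * e) ^ 2 * e = a ^ 4 * e ^ 3 := by
  simp only [pow_succ, pow_zero, one_mul]
  ac_rfl

section

variable {κ L : Type*} [Field κ] [IsAlgClosed κ] [CharZero κ] [Field L] [Algebra κ L] {n d : ℕ}
  (X : Dat κ (L := L) n d) {b : ℕ} {A : L[X][X]} (hA : Crv X b A)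

include hA in
/-- the height of the row of a coefficient -/
theorem ht_row_coeff (h : IsFF κ L) (t : Option (Fin (n + 1))) (i j : ℕ) :
    ht κ (Submodule.span L {X.row (((t.elim A (X.B A)).coeff i).coeff j)}) ≤
      4 * gh κ A + 3 * X.Δ := by
  have hA0 : A ≠ 0 := hA.irr.ne_zero
  have hα : 0 ≤ gh κ A := gh_nonneg h hA0
  have hΔ := X.Δ_nonneg
  have s0 := gg_support h hA0
  have s2 : (Function.support fun w : Place κ L => 4 * log (gg w.1 A)).Finite := by
    refine s0.subset fun w hw h1 => hw ?_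
    simp only at h1 ⊢
    rw [h1, mul_zero]
  have s3 : (Function.support fun w : Place κ L => 3 * (X.δ w : ℤ)).Finite := by
    refine X.hδ.subset fun w hw h1 => hw ?_
    simp only at h1 ⊢
    rw [h1, Nat.cast_zero, mul_zero]
  have hloc : ∀ (w : Place κ L) (K : M3 d), w.1 (X.row (((t.elim A (X.B A)).coeff i).coeff j) K) ≤
      exp (4 * log (gg w.1 A) + 3 * (X.δ w : ℤ)) := by
    intro w K
    have ha : 1 ≤ gg w.1 A := one_le_gg hA.one w
    have ha0 : gg w.1 A ≠ 0 := (gg_eq_zero w.1).not.2 hA0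
    have he : (1 : ℤᵐ⁰) ≤ exp (X.δ w : ℤ) := by
      rw [← exp_zero, exp_le_exp]
      positivity
    have hc : max 1 (w.1 (((t.elim A (X.B A)).coeff i).coeff j)) ≤
        gg w.1 A ^ 2 * exp (X.δ w : ℤ) := by
      refine max_le (one_le_mul (one_le_pow₀ ha) he) ?_
      cases t with
      | none =>
        refine (le_gg w.1 A i j).trans ?_
        calc gg w.1 A = gg w.1 A * 1 * 1 := by rw [mul_one, mul_one]
          _ ≤ gg w.1 A * gg w.1 A * exp (X.δ w : ℤ) :=
            mul_le_mul' (mul_le_mul' le_rfl ha) he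
          _ = gg w.1 A ^ 2 * exp (X.δ w : ℤ) := by rw [sq]
      | some k => exact (le_gg w.1 (X.B A k) i j).trans (X.B_le hA k w)
    refine (X.DK_le K w _).trans ((mul_le_mul' (pow_le_pow_left' hc 2) le_rfl).trans ?_)
    have e1 : (exp (4 * log (gg w.1 A) + 3 * (X.δ w : ℤ)) : ℤᵐ⁰) =
        gg w.1 A ^ 4 * exp (X.δ w : ℤ) ^ 3 := by
      rw [exp_add, show (4 * log (gg w.1 A) : ℤ) = (4 : ℕ) • log (gg w.1 A) by simp,
        show (3 * (X.δ w : ℤ) : ℤ) = (3 : ℕ) • (X.δ w : ℤ) by simp, exp_nsmul, exp_nsmul,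
        exp_log ha0]
    rw [e1]
    exact le_of_eq (w22_a _ _)
  have hfin := (s2.union s3).subset (Function.support_add _ _)
  rcases ht_single_le h hfin hloc with h1 | h1
  · rw [h1, Submodule.span_zero_singleton, ht_bot h]
    positivity
  · rw [finsum_add_distrib s2 s3] at h1
    have e2 : ∑ᶠ w : Place κ L, 4 * log (gg w.1 A) = 4 * gh κ A := (mul_finsum _ _).symm
    have e3 : ∑ᶠ w : Place κ L, 3 * (X.δ w : ℤ) = 3 * X.Δ := (mul_finsum _ _).symm
    rw [e2, e3] at h1
    exact h1

/-- the height of the row of `y₁` -/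
theorem ht_row_y₁ (h : IsFF κ L) :
    ht κ (Submodule.span L {X.row X.y₁}) ≤ 2 * height κ X.x + X.Δ := by
  have hH : 0 ≤ height κ X.x := h.height_nonneg X.x_ne_zero
  have hΔ := X.Δ_nonneg
  have s0 := h.vmax_support X.x_ne_zero
  have s2 : (Function.support fun w : Place κ L => 2 * log (vmax w.1 X.x)).Finite := by
    refine s0.subset fun w hw h1 => hw ?_
    simp only at h1 ⊢
    rw [h1, mul_zero]
  have s3 : (Function.support fun w : Place κ L => (X.δ w : ℤ)).Finite := by
    refine X.hδ.subset fun w hw h1 => hw ?_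
    simp only at h1 ⊢
    rw [h1, Nat.cast_zero]
  have hloc : ∀ (w : Place κ L) (K : M3 d), w.1 (X.row X.y₁ K) ≤
      exp (2 * log (vmax w.1 X.x) + (X.δ w : ℤ)) := by
    intro w K
    have hv : vmax w.1 X.x ≠ 0 := by
      rw [Ne, vmax_eq_zero_iff]
      exact X.x_ne_zero
    have h1 := X.DK_le K w X.y₁
    rw [← X.vmax_x w] at h1
    refine h1.trans (le_of_eq ?_)
    rw [exp_add, show (2 * log (vmax w.1 X.x) : ℤ) = (2 : ℕ) • log (vmax w.1 X.x) by simp,
      exp_nsmul, exp_log hv]
  have hfin := (s2.union s3).subset (Function.support_add _ _)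
  rcases ht_single_le h hfin hloc with h1 | h1
  · rw [h1, Submodule.span_zero_singleton, ht_bot h]
    positivity
  · rw [finsum_add_distrib s2 s3] at h1
    have e2 : ∑ᶠ w : Place κ L, 2 * log (vmax w.1 X.x) = 2 * height κ X.x :=
      (mul_finsum _ _).symm
    rw [e2] at h1
    exact h1

include hA in
/-- **The height of the space of the rows in terms of its dimension.** -/
theorem ht_V_le (h : IsFF κ L) {N : ℕ} (hN : finrank L (X.V b A) ≤ N) : ht κ (X.V b A) ≤
    N * (4 * gh κ A + 3 * X.Δ) + 2 * height κ X.x + X.Δ := by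
  have hα : 0 ≤ gh κ A := gh_nonneg h hA.irr.ne_zero
  have hΔ := X.Δ_nonneg
  have hc : 0 ≤ 4 * gh κ A + 3 * X.Δ := by linarith
  unfold Dat.V at hN ⊢
  refine (ht_sup_le h _ _).trans ?_
  have h1 := ht_sup_span_le h (fun t : Option (Fin (n + 1)) × Fin (b + 1) × Fin (b + 1) =>
    X.row (((t.1.elim A (X.B A)).coeff t.2.1).coeff t.2.2))
    (fun t => ht_row_coeff X hA h t.1 t.2.1 t.2.2)
  have h2 := ht_row_y₁ X h
  have h3 : (finrank L ↥(Finset.univ.sup fun t : Option (Fin (n + 1)) × Fin (b + 1) ×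
      Fin (b + 1) => Submodule.span L {X.row (((t.1.elim A (X.B A)).coeff t.2.1).coeff t.2.2)} :
      Submodule L (M3 d → L)) : ℤ) ≤ N := by
    exact_mod_cast (Submodule.finrank_mono le_sup_left).trans hN
  have h4 := mul_le_mul_of_nonneg_right h3 hc
  linarith

end

end Pool.Agent.Lib.MP_44a246_ntW
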