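import Mathlib

/-!
# Slopes, stage 2: a derivation applied to the coefficients of polynomials
-/

namespace Pool.Agent.Lib.MP_44a246_ntW

open Polynomial

section

variable {L : Type*} [Field L]

/-- a derivation applied to the coefficients of a polynomial -/
noncomputable def cp (D : Derivation ℤ L L) (P : L[X]) : L[X] := P.sum fun j c => monomial j (D c)

/-- a derivation applied to the coefficients of a polynomial in two variables -/
noncomputable def cq (D : Derivation ℤ L L) (A : L[X][X]) : L[X][X] :=
  A.sum fun i P => monomial i (cp D P)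

theorem cp_coeff (D : Derivation ℤ L L) (P : L[X]) (j : ℕ) : (cp D P).coeff j = D (P.coeff j) := by
  unfold cp
  rw [Polynomial.sum_def, Polynomial.finsetSum_coeff]
  simp only [Polynomial.coeff_monomial]
  rw [Finset.sum_ite_eq' P.support j (fun b => D (P.coeff b))]
  split_ifs with h
  · rfl
  · rw [Polynomial.notMem_support_iff.mp h, map_zero]

theorem cp_zero' (D : Derivation ℤ L L) : cp D (0 : L[X]) = 0 := by
  ext j
  rw [cp_coeff]
  simp

theorem cq_coeff (D : Derivation ℤ L L) (A : L[X][X]) (i : ℕ) :
    (cq D A).coeff i = cp D (A.coeff i) := by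
  unfold cq
  rw [Polynomial.sum_def, Polynomial.finsetSum_coeff]
  simp only [Polynomial.coeff_monomial]
  rw [Finset.sum_ite_eq' A.support i (fun b => cp D (A.coeff b))]
  split_ifs with h
  · rfl
  · rw [Polynomial.notMem_support_iff.mp h, cp_zero']

theorem cp_add (D : Derivation ℤ L L) (P Q : L[X]) : cp D (P + Q) = cp D P + cp D Q := by
  ext j
  rw [Polynomial.coeff_add, cp_coeff, cp_coeff, cp_coeff, Polynomial.coeff_add, map_add]

theorem cp_mul (D : Derivation ℤ L L) (P Q : L[X]) :
    cp D (P * Q) = P * cp D Q + Q * cp D P := by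
  -- `coeff_mul`, Leibniz
  ext j
  rw [Polynomial.coeff_add, cp_coeff, Polynomial.coeff_mul, mul_comm Q, Polynomial.coeff_mul,
    Polynomial.coeff_mul, map_sum, ← Finset.sum_add_distrib]
  refine Finset.sum_congr rfl fun x _ => ?_
  rw [cp_coeff, cp_coeff, Derivation.leibniz]
  simp only [smul_eq_mul]
  ring

theorem cp_natCast (D : Derivation ℤ L L) (c : ℕ) : cp D (c : L[X]) = 0 := by
  ext j
  rw [cp_coeff, Polynomial.coeff_zero, Polynomial.coeff_natCast_ite]
  split_ifs
  · exact D.map_natCast c
  · exact D.map_natCast 0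

theorem natDegree_cp_le (D : Derivation ℤ L L) (P : L[X]) : (cp D P).natDegree ≤ P.natDegree := by
  rw [Polynomial.natDegree_le_iff_coeff_eq_zero]
  intro N hN
  rw [cp_coeff, Polynomial.coeff_eq_zero_of_natDegree_lt hN, map_zero]

/-- the leading coefficient `1` is killed -/
theorem degree_cp_lt (D : Derivation ℤ L L) {P : L[X]} (hP : P.Monic) :
    (cp D P).degree < P.degree := by
  -- the coefficients with index `≥ natDegree P` vanish; if `P = 1` then `cp D P = 0`
  rw [Polynomial.degree_eq_natDegree hP.ne_zero, Polynomial.degree_lt_iff_coeff_zero]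
  intro m hm
  rw [cp_coeff]
  rcases hm.eq_or_lt with h | h
  · rw [← h, hP.coeff_natDegree]
    exact D.map_one_eq_zero
  · rw [Polynomial.coeff_eq_zero_of_natDegree_lt h, map_zero]

theorem cp_pow_eq_zero (D : Derivation ℤ L L) {P : L[X]} (h : cp D P = 0) (k : ℕ) :
    cp D (P ^ k) = 0 := by
  induction k with
  | zero =>
    rw [pow_zero]
    have := cp_natCast D 1
    rwa [Nat.cast_one] at this
  | succ k ih => rw [pow_succ, cp_mul, h, ih, mul_zero, mul_zero, add_zero]

end

end Pool.Agent.Lib.MP_44a246_ntW
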