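import Mathlib
import Pool.Agent.Lib.MP_44a246_ntW.W01

/-!
# The chain rule at a root; the parametrisation is killed by the derivations
-/

namespace Pool.Agent.Lib.MP_44a246_ntW

open Polynomial

section

variable {L Ω : Type*} [Field L] [Field Ω] [Algebra L[X] Ω]

private theorem w03_cp_zero (D : Derivation ℤ L L) : cp D (0 : L[X]) = 0 := by
  unfold cp
  exact Polynomial.sum_zero_index _

private theorem w03_cq_add (D : Derivation ℤ L L) (A B : L[X][X]) :
    cq D (A + B) = cq D A + cq D B := by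
  ext1 i
  rw [cq_coeff, coeff_add, coeff_add, cq_coeff, cq_coeff, cp_add]

private theorem w03_cq_monomial (D : Derivation ℤ L L) (i : ℕ) (P : L[X]) :
    cq D (monomial i P) = monomial i (cp D P) := by
  ext1 j
  rw [cq_coeff, coeff_monomial, coeff_monomial]
  split_ifs with h
  · rfl
  · exact w03_cp_zero D

/-- the chain rule -/
theorem chain_root {D : Derivation ℤ L L} {D' : Derivation ℤ Ω Ω}
    (h : ∀ P : L[X], D' (algebraMap L[X] Ω P) = algebraMap L[X] Ω (cp D P)) (A : L[X][X]) (ρ : Ω) :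
    D' (aeval ρ A) = aeval ρ (cq D A) + aeval ρ (derivative A) * D' ρ := by
  -- additive in `A`; for `A = monomial i P`: `D' (P ρ ^ i)`
  induction A using Polynomial.induction_on' with
  | add p q hp hq =>
    rw [map_add, map_add, hp, hq, w03_cq_add, derivative_add, map_add, map_add]
    ring
  | monomial i P =>
    rw [w03_cq_monomial, derivative_monomial, aeval_monomial, aeval_monomial, aeval_monomial,
      Derivation.leibniz, Derivation.leibniz_pow, h, map_mul, map_natCast]
    simp only [smul_eq_mul, nsmul_eq_mul]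
    ring

/-- the value of `- D A / A_Y` at `ρ` -/
noncomputable def yv (D : Derivation ℤ L L) (A : L[X][X]) (ρ : Ω) : Ω :=
  aeval ρ (-cq D A) / aeval ρ (derivative A)

/-- the numerator of `D₂ (- D₁ A / A_Y)` on the curve `A = 0` -/
noncomputable def EE (D₁ D₂ : Derivation ℤ L L) (A : L[X][X]) : L[X][X] :=
  derivative A * (derivative A * cq D₂ (-cq D₁ A) + derivative (-cq D₁ A) * -cq D₂ A) -
    -cq D₁ A * (derivative A * cq D₂ (derivative A) + derivative (derivative A) * -cq D₂ A)

/-- the derivative of a root -/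
theorem D_root {D : Derivation ℤ L L} {D' : Derivation ℤ Ω Ω}
    (h : ∀ P : L[X], D' (algebraMap L[X] Ω P) = algebraMap L[X] Ω (cp D P)) {A : L[X][X]} {ρ : Ω}
    (h0 : aeval ρ A = 0) (h1 : aeval ρ (derivative A) ≠ 0) : D' ρ = yv D A ρ := by
  -- `chain_root` for `A`
  have h2 := chain_root h A ρ
  rw [h0, map_zero] at h2
  unfold yv
  rw [eq_div_iff h1, map_neg]
  linear_combination -h2

/-- the parametrisation is killed -/
theorem D_yv {D₁ D₂ : Derivation ℤ L L} {D' : Derivation ℤ Ω Ω}
    (h : ∀ P : L[X], D' (algebraMap L[X] Ω P) = algebraMap L[X] Ω (cp D₂ P)) {A : L[X][X]} {ρ : Ω}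
    (h0 : aeval ρ A = 0) (h1 : aeval ρ (derivative A) ≠ 0) (hE : A ∣ EE D₁ D₂ A) :
    D' (yv D₁ A ρ) = 0 := by
  -- quotient rule (`Derivation.leibniz_div`), `chain_root` for `-cq D₁ A` and `derivative A`,
  -- `D_root`: `D' (yv D₁ A ρ) * (A_Y(ρ)) ^ 3 = aeval ρ (EE D₁ D₂ A) = 0`
  have hr := D_root h h0 h1
  have hn := chain_root h (-cq D₁ A) ρ
  have hm := chain_root h (derivative A) ρ
  have hEE : aeval ρ (EE D₁ D₂ A) = 0 := by
    obtain ⟨B, hB⟩ := hE
    rw [hB, map_mul, h0, zero_mul]
  have hrs : aeval ρ (derivative A) * D' ρ = aeval ρ (-cq D₂ A) := by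
    rw [hr]
    unfold yv
    rw [mul_div_cancel₀ _ h1]
  have hy : yv D₁ A ρ * aeval ρ (derivative A) = aeval ρ (-cq D₁ A) := by
    unfold yv
    rw [div_mul_cancel₀ _ h1]
  have hD : D' (aeval ρ (-cq D₁ A)) = yv D₁ A ρ * D' (aeval ρ (derivative A)) +
      aeval ρ (derivative A) * D' (yv D₁ A ρ) := by
    rw [← hy, Derivation.leibniz]
    rfl
  unfold EE at hEE
  simp only [map_sub, map_mul, map_add] at hEE
  generalize aeval ρ (derivative A) = m at *
  generalize aeval ρ (-cq D₁ A) = n at *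
  generalize aeval ρ (-cq D₂ A) = t at *
  generalize aeval ρ (cq D₂ (-cq D₁ A)) = a at *
  generalize aeval ρ (cq D₂ (derivative A)) = c at *
  generalize aeval ρ (derivative (-cq D₁ A)) = b at *
  generalize aeval ρ (derivative (derivative A)) = d at *
  generalize yv D₁ A ρ = y at *
  have h3 : m ^ 3 * D' y = 0 := by
    linear_combination (-m ^ 2) * hD + m ^ 2 * hn - m ^ 2 * y * hm + (m * b - m * y * d) * hrs +
      hEE - (m * c + d * t) * hy
  exact (mul_eq_zero.1 h3).resolve_left (pow_ne_zero 3 h1)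

end

end Pool.Agent.Lib.MP_44a246_ntW
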