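import Mathlib
import Pool.Agent.Lib.MP_44a246_ntW.W03
import Pool.Agent.Lib.MP_44a246_ntS.SL2
import Pool.Agent.Lib.MP_44a246_ntS.SJ5c

/-!
# The polynomial `EE`: degree and size
-/

namespace Pool.Agent.Lib.MP_44a246_ntW

open Pool.Agent.Lib.MP_44a246_nt
open Pool.Agent.Lib.MP_44a246_ntL
open Pool.Agent.Lib.MP_44a246_ntS
open WithZero Polynomial

section

variable {L : Type*} [Field L]

theorem cd_eq_cq (D : Derivation ℤ L L) (A : L[X][X]) : cd D A = cq D A := rfl

theorem natDegree_cq_le (D : Derivation ℤ L L) (A : L[X][X]) :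
    (cq D A).natDegree ≤ A.natDegree := by
  rw [← cd_eq_cq, natDegree_le_iff_coeff_eq_zero]
  intro i hi
  ext j
  rw [cd_coeff, coeff_eq_zero_of_natDegree_lt hi, coeff_zero, map_zero]

theorem natDegree_EE_le (D₁ D₂ : Derivation ℤ L L) {A : L[X][X]} {b : ℕ} (hA : A.natDegree ≤ b) :
    (EE D₁ D₂ A).natDegree ≤ 3 * b := by
  have h1 : (derivative A).natDegree ≤ b := (natDegree_derivative_le A).trans (by omega)
  have h2 : ∀ D : Derivation ℤ L L, (-cq D A).natDegree ≤ b := fun D => by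
    rw [natDegree_neg]
    exact (natDegree_cq_le D A).trans hA
  have h3 : ∀ D D' : Derivation ℤ L L, (cq D (-cq D' A)).natDegree ≤ b := fun D D' =>
    (natDegree_cq_le D _).trans (h2 D')
  have h4 : ∀ D : Derivation ℤ L L, (derivative (-cq D A)).natDegree ≤ b := fun D =>
    (natDegree_derivative_le _).trans ((Nat.sub_le _ _).trans (h2 D))
  have h5 : (cq D₂ (derivative A)).natDegree ≤ b := (natDegree_cq_le D₂ _).trans h1
  have h6 : (derivative (derivative A)).natDegree ≤ b :=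
    (natDegree_derivative_le _).trans ((Nat.sub_le _ _).trans h1)
  have key : ∀ P Q R S T : L[X][X], P.natDegree ≤ b → Q.natDegree ≤ b → R.natDegree ≤ b →
      S.natDegree ≤ b → T.natDegree ≤ b → (P * (Q * R + S * T)).natDegree ≤ 3 * b := by
    intro P Q R S T hP hQ hR hS hT
    have e1 : (Q * R + S * T).natDegree ≤ 2 * b := by
      refine (natDegree_add_le _ _).trans (max_le ?_ ?_)
      · exact natDegree_mul_le.trans (by omega)
      · exact natDegree_mul_le.trans (by omega)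
    exact natDegree_mul_le.trans (by omega)
  unfold EE
  refine (natDegree_sub_le _ _).trans (max_le ?_ ?_)
  · exact key _ _ _ _ _ h1 h1 (h3 _ _) (h4 _) (h2 _)
  · exact key _ _ _ _ _ (h2 _) h1 h5 h6 (h2 _)

end

section

variable {κ L : Type*} [Field κ] [Field L] [Algebra κ L]

/-- the size of the derivatives of the coefficients -/
theorem cd_le_max {D : Derivation ℤ L L} {δ : Place κ L → ℕ} (hD : PoleBound κ D δ) (A : L[X][X])
    (w : Place κ L) : gg w.1 (cd D A) ≤ max 1 (gg w.1 A) ^ 2 * exp (δ w : ℤ) := by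
  refine gg_le w.1 fun i j => ?_
  rw [cd_coeff]
  set c := (A.coeff i).coeff j with hc
  have hcg : w.1 c ≤ gg w.1 A := le_gg w.1 A i j
  by_cases h : w.1 c ≤ 1
  · refine (hD w c h).trans ?_
    calc (exp (δ w : ℤ) : ℤᵐ⁰) = 1 * exp (δ w : ℤ) := (one_mul _).symm
      _ ≤ max 1 (gg w.1 A) ^ 2 * exp (δ w : ℤ) :=
        mul_le_mul_left (one_le_pow₀ (le_max_left _ _)) _
  · have h' : 1 < w.1 c := not_le.1 h
    have h2 : w.1 (c⁻¹) ≤ 1 := by
      rw [map_inv₀]
      exact inv_le_one_of_one_le₀ h'.le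
    have h3 : D c = -(c ^ 2 * D (c⁻¹)) := by
      have h4 := Derivation.leibniz_inv D (c⁻¹)
      rw [inv_inv] at h4
      rw [h4, smul_eq_mul]
      ring
    rw [h3, Valuation.map_neg, map_mul, map_pow]
    exact mul_le_mul' (pow_le_pow_left' (hcg.trans (le_max_right _ _)) 2) (hD w _ h2)

private lemma w20_a {M : Type*} [CommMonoid M] (a e : M) :
    a * ((a ^ 2 * e) ^ 2 * e) = a ^ 5 * e ^ 3 := by
  simp only [pow_succ, pow_zero, one_mul]
  ac_rfl

private lemma w20_b {M : Type*} [CommMonoid M] (a e : M) :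
    a ^ 2 * e * (a ^ 2 * e) = a ^ 4 * e ^ 2 := by
  simp only [pow_succ, pow_zero, one_mul]
  ac_rfl

private lemma w20_c {M : Type*} [CommMonoid M] (a e : M) : a * (a ^ 5 * e ^ 3) = a ^ 6 * e ^ 3 := by
  simp only [pow_succ, pow_zero, one_mul]
  ac_rfl

private lemma w20_d {M : Type*} [CommMonoid M] (a e : M) : a * (a ^ 2 * e) = a ^ 3 * e := by
  simp only [pow_succ, pow_zero, one_mul]
  ac_rfl

private lemma w20_e {M : Type*} [CommMonoid M] (a e : M) :
    a ^ 2 * e * (a ^ 3 * e) = a ^ 5 * e ^ 2 := by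
  simp only [pow_succ, pow_zero, one_mul]
  ac_rfl

theorem gg_EE_le {D₁ D₂ : Derivation ℤ L L} {δ : Place κ L → ℕ} (h₁ : PoleBound κ D₁ δ)
    (h₂ : PoleBound κ D₂ δ) {A : L[X][X]} (h1 : ∃ i j, (A.coeff i).coeff j = 1) (w : Place κ L) :
    gg w.1 (EE D₁ D₂ A) ≤ gg w.1 A ^ 6 * exp (δ w : ℤ) ^ 3 := by
  have ha : 1 ≤ gg w.1 A := one_le_gg h1 w
  have he : (1 : ℤᵐ⁰) ≤ exp (δ w : ℤ) := by
    rw [← exp_zero, exp_le_exp]
    positivity
  set a := gg w.1 A with hadef
  set e : ℤᵐ⁰ := exp (δ w : ℤ) with hedef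
  have hAY : gg w.1 (derivative A) ≤ a := gg_derivative_le w.1 A
  have hAYY : gg w.1 (derivative (derivative A)) ≤ a := (gg_derivative_le w.1 _).trans hAY
  have hB₁ : gg w.1 (-cq D₁ A) ≤ a ^ 2 * e := by
    rw [Valuation.map_neg]
    exact cd_ne_zero_le h₁ h1 w
  have hB₂ : gg w.1 (-cq D₂ A) ≤ a ^ 2 * e := by
    rw [Valuation.map_neg]
    exact cd_ne_zero_le h₂ h1 w
  have hB₁' : gg w.1 (derivative (-cq D₁ A)) ≤ a ^ 2 * e := (gg_derivative_le w.1 _).trans hB₁
  have hcAY : gg w.1 (cq D₂ (derivative A)) ≤ a ^ 2 * e := by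
    refine (cd_le_max h₂ _ w).trans ?_
    exact mul_le_mul' (pow_le_pow_left' (max_le ha hAY) 2) le_rfl
  have hae : 1 ≤ a ^ 2 * e := one_le_mul (one_le_pow₀ ha) he
  have hcB : gg w.1 (cq D₂ (-cq D₁ A)) ≤ (a ^ 2 * e) ^ 2 * e := by
    refine (cd_le_max h₂ _ w).trans ?_
    exact mul_le_mul' (pow_le_pow_left' (max_le hae hB₁) 2) le_rfl
  have hup : ∀ k l : ℕ, k ≤ 6 → l ≤ 3 → a ^ k * e ^ l ≤ a ^ 6 * e ^ 3 := fun k l hk hl =>
    mul_le_mul' (pow_le_pow_right₀ ha hk) (pow_le_pow_right₀ he hl)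
  unfold EE
  refine (Valuation.map_sub _ _ _).trans (max_le ?_ ?_)
  · rw [map_mul]
    have e1 : gg w.1 (derivative A * cq D₂ (-cq D₁ A) + derivative (-cq D₁ A) * -cq D₂ A) ≤
        a ^ 5 * e ^ 3 := by
      refine (Valuation.map_add _ _ _).trans (max_le ?_ ?_)
      · rw [map_mul]
        exact (mul_le_mul' hAY hcB).trans (le_of_eq (w20_a a e))
      · rw [map_mul]
        refine (mul_le_mul' hB₁' hB₂).trans ?_
        rw [w20_b]
        exact mul_le_mul' (pow_le_pow_right₀ ha (by norm_num)) (pow_le_pow_right₀ he (by norm_num))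
    exact (mul_le_mul' hAY e1).trans (le_of_eq (w20_c a e))
  · rw [map_mul]
    have e1 : gg w.1 (derivative A * cq D₂ (derivative A) +
        derivative (derivative A) * -cq D₂ A) ≤ a ^ 3 * e := by
      refine (Valuation.map_add _ _ _).trans (max_le ?_ ?_)
      · rw [map_mul]
        exact (mul_le_mul' hAY hcAY).trans (le_of_eq (w20_d a e))
      · rw [map_mul]
        exact (mul_le_mul' hAYY hB₂).trans (le_of_eq (w20_d a e))
    refine (mul_le_mul' hB₁ e1).trans ?_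
    rw [w20_e]
    exact hup 5 2 (by norm_num) (by norm_num)

end

end Pool.Agent.Lib.MP_44a246_ntW
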