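import Mathlib

/-!
# Numerical lemmas for the height theorem with the span theorem
-/

namespace Pool.Agent.Lib.MP_44a246_ntW

/-- the bound for the dimension of the space of the rows, for `b = 2 T` -/
def NN (n T : ℕ) : ℕ := (2 * (2 * T) + 1) * (2 * T + 1) ^ 2 + 2 * (2 * T) * (n + 1) + 1

/-- the numerical facts which follow from the hypothesis on the degree -/
theorem numW1 {n d T : ℕ} (hT : 1 ≤ T) (hT2 : 2000 * T ^ 2 ≤ d)
    (hN : 2 * n + 8500 * T ^ 2 + T * (n + 2) ≤ T * d) :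
    8500 * T + n + 2 ≤ d ∧ 10 * NN n T ≤ 41 * (T * d) ∧ 32 * NN n T ≤ (d / 8) ^ 2 := by
  have h1 : 8500 * T + n + 2 ≤ d := by
    have h : T * (8500 * T + n + 2) ≤ T * d := by
      calc T * (8500 * T + n + 2) = 8500 * T ^ 2 + T * (n + 2) := by ring
        _ ≤ T * d := by omega
    exact Nat.le_of_mul_le_mul_left h (by omega)
  have hT3 : 1 ≤ T ^ 3 := Nat.one_le_pow _ _ hT
  have h2 : 10 * NN n T ≤ 41 * (T * d) := by
    unfold NN
    have e1 : (2 * (2 * T) + 1) * (2 * T + 1) ^ 2 ≤ 45 * T ^ 3 := by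
      have a1 : 2 * (2 * T) + 1 ≤ 5 * T := by omega
      have a2 : (2 * T + 1) ^ 2 ≤ (3 * T) ^ 2 := Nat.pow_le_pow_left (by omega) 2
      calc (2 * (2 * T) + 1) * (2 * T + 1) ^ 2 ≤ 5 * T * (3 * T) ^ 2 := Nat.mul_le_mul a1 a2
        _ = 45 * T ^ 3 := by ring
    have e2 : 2000 * T ^ 3 ≤ T * d := by
      calc 2000 * T ^ 3 = T * (2000 * T ^ 2) := by ring
        _ ≤ T * d := Nat.mul_le_mul_left _ hT2
    have e3 : T * (8500 * T + n + 2) ≤ T * d := Nat.mul_le_mul_left _ h1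
    have e4 : 2 * (2 * T) * (n + 1) + 1 ≤ 4 * (T * d) := by nlinarith
    nlinarith
  refine ⟨h1, h2, ?_⟩
  have h3 : d ≤ 8 * (d / 8) + 7 := by omega
  have h4 : 1062 * T ≤ d / 8 := by omega
  generalize d / 8 = t at h3 h4 ⊢
  have h5 : 1062 ≤ t := by omega
  have h6 : 1062 * (T * d) ≤ t * (8 * t + 7) := by
    calc 1062 * (T * d) = (1062 * T) * d := by ring
      _ ≤ t * (8 * t + 7) := Nat.mul_le_mul h4 h3
  nlinarith

theorem numW2 {n d T : ℕ} (hT : 1 ≤ T) (hT2 : 2000 * T ^ 2 ≤ d)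
    (hN : 2 * n + 8500 * T ^ 2 + T * (n + 2) ≤ T * d)
    {H α : ℤ} (hH : 0 < H) (hα0 : 0 ≤ α) (hα : 3 * (α * (850 * T : ℕ)) ≤ 8 * H) :
    16 * (3 * H + 4 * ((NN n T : ℕ) : ℤ) * α) < d * H ∧
      28 * ((NN n T : ℕ) : ℤ) * ((d / 8 : ℕ) : ℤ) * α +
        16 * ((2 * T : ℕ) : ℤ) * (3 * H + 4 * ((NN n T : ℕ) : ℤ) * α) <
          7 * ((d / 8 : ℕ) : ℤ) ^ 2 * H ∧
      36 * ((2 * T : ℕ) : ℤ) * α ≤ H := by
  obtain ⟨h1, h2, -⟩ := numW1 hT hT2 hN
  have h3 : d ≤ 8 * (d / 8) + 7 := by omega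
  have h4 : 1062 * T ≤ d / 8 := by omega
  have hT1 : (1 : ℤ) ≤ T := by exact_mod_cast hT
  have h1' : 8500 * (T : ℤ) + 2 ≤ d := by
    have : 8500 * T + 2 ≤ d := by omega
    exact_mod_cast this
  have h2' : 10 * ((NN n T : ℕ) : ℤ) ≤ 41 * (T * d) := by exact_mod_cast h2
  generalize hs : ((d / 8 : ℕ) : ℤ) = s
  have h3' : (d : ℤ) ≤ 8 * s + 7 := by rw [← hs]; exact_mod_cast h3
  have h4' : 1062 * (T : ℤ) ≤ s := by rw [← hs]; exact_mod_cast h4
  have hM0 : (0 : ℤ) ≤ ((NN n T : ℕ) : ℤ) := by positivity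
  generalize ((NN n T : ℕ) : ℤ) = M at h2' hM0 ⊢
  push_cast at hα ⊢
  generalize (d : ℤ) = D at h1' h2' h3' ⊢
  generalize (T : ℤ) = U at hT1 h1' h2' h4' hα ⊢
  have hD0 : 8502 ≤ D := by linarith
  have hs0 : 1062 ≤ s := by linarith
  -- `K = U α`, `2550 K ≤ 8 H`
  obtain ⟨K, hK⟩ : ∃ K, K = U * α := ⟨_, rfl⟩
  have hK0 : 0 ≤ K := by rw [hK]; positivity
  have hK1 : 2550 * K ≤ 8 * H := by rw [hK]; linarith
  -- `M α`
  obtain ⟨J, hJ⟩ : ∃ J, J = M * α := ⟨_, rfl⟩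
  have hJ0 : 0 ≤ J := by rw [hJ]; positivity
  have hJ1 : 10 * J ≤ 41 * (D * K) := by
    have := mul_le_mul_of_nonneg_right h2' hα0
    rw [hJ, hK]
    nlinarith
  have hDK : D * (2550 * K) ≤ D * (8 * H) := mul_le_mul_of_nonneg_left hK1 (by linarith)
  have hJ2 : 25500 * J ≤ 328 * (D * H) := by nlinarith
  have hDH : 8502 * H ≤ D * H := mul_le_mul_of_nonneg_right hD0 hH.le
  have hη : 16 * (3 * H + 4 * M * α) < D * H := by
    have e : 16 * (3 * H + 4 * M * α) = 48 * H + 64 * J := by rw [hJ]; ring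
    rw [e]
    linarith
  refine ⟨hη, ?_, ?_⟩
  · have e : 28 * M * s * α + 16 * (2 * U) * (3 * H + 4 * M * α) =
        28 * (s * J) + 2 * (U * (16 * (3 * H + 4 * M * α))) := by rw [hJ]; ring
    rw [e]
    have e1 : U * (16 * (3 * H + 4 * M * α)) ≤ U * (D * H) :=
      mul_le_mul_of_nonneg_left hη.le (by linarith)
    have e2 : s * (25500 * J) ≤ s * (328 * (D * H)) := mul_le_mul_of_nonneg_left hJ2 (by linarith)
    have e3 : 1062 * (U * (D * H)) ≤ s * (D * H) := by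
      have : 0 ≤ D * H := mul_nonneg (by linarith) hH.le
      have := mul_le_mul_of_nonneg_right h4' this
      linarith
    have e4 : s * (D * H) ≤ s * ((8 * s + 7) * H) :=
      mul_le_mul_of_nonneg_left (mul_le_mul_of_nonneg_right h3' hH.le) (by linarith)
    have e5 : s * ((8 * s + 7) * H) = 8 * (s ^ 2 * H) + 7 * (s * H) := by ring
    have e6 : 1062 * (s * H) ≤ s ^ 2 * H := by
      have : 0 ≤ s * H := mul_nonneg (by linarith) hH.le
      have := mul_le_mul_of_nonneg_right hs0 this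
      nlinarith
    have e7 : 0 < s ^ 2 * H := by positivity
    have e8 : 7 * s ^ 2 * H = 7 * (s ^ 2 * H) := by ring
    rw [e8]
    have e9 : s * J * 25500 ≤ 328 * (s * (D * H)) := by nlinarith
    nlinarith
  · have e : 36 * (2 * U) * α = 72 * K := by rw [hK]; ring
    rw [e]
    linarith

/-- the hypothesis of step C -/
theorem numW3 {n d T : ℕ} (hT : 1 ≤ T) (hT2 : 2000 * T ^ 2 ≤ d)
    (hN : 2 * n + 8500 * T ^ 2 + T * (n + 2) ≤ T * d)
    {H α Δ Θ : ℤ} (hH : 0 < H) (hΔ : 0 ≤ Δ) (hΘ : 0 ≤ Θ)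
    (hα : α * ((d / 8 : ℕ) : ℤ) ^ 2 ≤ 10 * H) (hbig : 4 * (d : ℤ) ^ 2 * (Δ + Θ) < H) :
    (d * ((2 * T : ℕ) : ℤ)) * α + ((2 * T : ℕ) : ℤ) * (Θ + d * (2 * α + Δ)) < H := by
  -- `6 T d α ≤ 60 T d H / s ^ 2 < H / 2`, `2 T (Θ + d Δ) ≤ 2 d ^ 2 (Δ + Θ) < H / 2`
  obtain ⟨h1, -, -⟩ := numW1 hT hT2 hN
  have h3 : d ≤ 8 * (d / 8) + 7 := by omega
  have h4 : 1062 * T ≤ d / 8 := by omega
  have hT1 : (1 : ℤ) ≤ T := by exact_mod_cast hT
  have h1' : 8500 * (T : ℤ) + 2 ≤ d := by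
    have : 8500 * T + 2 ≤ d := by omega
    exact_mod_cast this
  generalize hs : ((d / 8 : ℕ) : ℤ) = s at hα
  have h3' : (d : ℤ) ≤ 8 * s + 7 := by rw [← hs]; exact_mod_cast h3
  have h4' : 1062 * (T : ℤ) ≤ s := by rw [← hs]; exact_mod_cast h4
  push_cast
  generalize (d : ℤ) = D at h1' h3' hbig ⊢
  generalize (T : ℤ) = U at hT1 h1' h4' ⊢
  have hD0 : 8502 ≤ D := by linarith
  have hs0 : 1062 ≤ s := by linarith
  have hs2 : 0 < s ^ 2 := by positivity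
  -- `12 U D α ≤ H`
  have h5 : 12 * U * D * α ≤ H := by
    have h6 : 12 * U * D * (α * s ^ 2) ≤ 12 * U * D * (10 * H) :=
      mul_le_mul_of_nonneg_left hα (by positivity)
    have h7 : 120 * (U * D) ≤ s ^ 2 := by
      have h8 : 1062 * (U * D) ≤ s * (8 * s + 7) := by
        calc 1062 * (U * D) = (1062 * U) * D := by ring
          _ ≤ s * (8 * s + 7) := mul_le_mul h4' h3' (by linarith) (by linarith)
      nlinarith
    have h8 : 120 * (U * D) * H ≤ s ^ 2 * H := mul_le_mul_of_nonneg_right h7 hH.le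
    have h9 : s ^ 2 * (12 * U * D * α) ≤ s ^ 2 * H := by nlinarith
    exact le_of_mul_le_mul_left h9 hs2
  have hUD : U ≤ D := by linarith
  have h10 : U * Θ ≤ D ^ 2 * Θ := mul_le_mul_of_nonneg_right (by nlinarith) hΘ
  have h11 : U * D * Δ ≤ D ^ 2 * Δ := mul_le_mul_of_nonneg_right (by nlinarith) hΔ
  have h12 : D * (2 * U) * α + 2 * U * (Θ + D * (2 * α + Δ)) =
      6 * U * D * α + 2 * (U * Θ) + 2 * (U * D * Δ) := by ring
  rw [h12]
  nlinarith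

end Pool.Agent.Lib.MP_44a246_ntW
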