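import Mathlib
import Pool.Agent.Lib.MP_44a246_ntW.W01

/-!
# Extension of derivations to an algebraic closure of `L(X)`
-/

namespace Pool.Agent.Lib.MP_44a246_ntW

open Polynomial

/-- The coefficientwise derivation extends to algebraic extensions. -/
theorem exists_ext {L Ω : Type*} [Field L] [CharZero L] [Field Ω] [Algebra L[X] Ω]
    [FaithfulSMul L[X] Ω] [Algebra.IsAlgebraic L[X] Ω] (D : Derivation ℤ L L) :
    ∃ D' : Derivation ℤ Ω Ω, ∀ P : L[X], D' (algebraMap L[X] Ω P) = algebraMap L[X] Ω (cp D P) := by
  -- As in `Pool/Agent/Lib/MP_e52354_nt/DerivExist.lean` (proof of `exists_derivation`): with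
  -- `S = L[X]`, `K = FractionRing S`, `Ω` is formally etale over `K` (separable algebraic) and
  -- `K` over `S` (localization), so `Ω` over `S`. `cp D` (with `cp_add`, `cp_mul`) followed by
  -- `algebraMap` is a derivation `d₀ : Derivation ℤ S Ω`; it extends to `Ω` by
  -- `(KaehlerDifferential.isBaseChange_of_formallyEtale ℤ S Ω).lift d₀.liftKaehlerDifferential`.
  let S := L[X]
  let K := FractionRing S
  let iKL : Algebra K Ω := FractionRing.liftAlgebra S Ω
  have : IsScalarTower S K Ω := inferInstance
  have : Algebra.IsAlgebraic K Ω :=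
    Algebra.IsAlgebraic.extendScalars (R := S) (S := K) (IsFractionRing.injective S K)
  have : CharZero K := charZero_of_injective_algebraMap
    ((IsFractionRing.injective S K).comp (C_injective (R := L)) :
      Function.Injective ((algebraMap S K).comp (C : L →+* S)))
  have : Algebra.FormallyEtale K Ω := Algebra.FormallyEtale.of_isSeparable K Ω
  have : Algebra.FormallyEtale S K := Algebra.FormallyEtale.of_isLocalization (nonZeroDivisors S)
  have : Algebra.FormallyEtale S Ω := Algebra.FormallyEtale.comp S K Ω
  have h0 : cp D (0 : L[X]) = 0 := by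
    have := cp_natCast D 0
    rwa [Nat.cast_zero] at this
  let g : S →+ Ω :=
    { toFun := fun P => algebraMap S Ω (cp D P)
      map_zero' := by rw [h0, map_zero]
      map_add' := fun P Q => by rw [cp_add, map_add] }
  let d₀ : Derivation ℤ S Ω := Derivation.mk' g.toIntLinearMap (by
    intro P Q
    change algebraMap S Ω (cp D (P * Q)) =
      P • algebraMap S Ω (cp D Q) + Q • algebraMap S Ω (cp D P)
    rw [cp_mul, map_add, map_mul, map_mul, Algebra.smul_def, Algebra.smul_def])
  let f := (KaehlerDifferential.isBaseChange_of_formallyEtale ℤ S Ω).lift d₀.liftKaehlerDifferential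
  refine ⟨f.compDer (KaehlerDifferential.D ℤ Ω), fun P => ?_⟩
  show f (KaehlerDifferential.D ℤ Ω (algebraMap S Ω P)) = algebraMap S Ω (cp D P)
  rw [← KaehlerDifferential.map_D ℤ ℤ S Ω]
  have h2 := (KaehlerDifferential.isBaseChange_of_formallyEtale ℤ S Ω).lift_eq
    d₀.liftKaehlerDifferential (KaehlerDifferential.D ℤ S P)
  rw [h2, Derivation.liftKaehlerDifferential_comp_D]
  rfl

end Pool.Agent.Lib.MP_44a246_ntW
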