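import Mathlib

/-!
# Iterated derivative of a product of elements with vanishing second derivative
-/

namespace Pool.Agent.Lib.MP_44a246_ntW

open Finset

private theorem iter_mul {R : Type*} [CommRing R] (D : Derivation ℤ R R) {x : R}
    (hx : D (D x) = 0) (G : R) (k : ℕ) :
    D^[k + 1] (x * G) = x * D^[k + 1] G + ((k : R) + 1) * D x * D^[k] G := by
  induction k with
  | zero =>
    simp only [zero_add, Function.iterate_one, Derivation.leibniz, smul_eq_mul, Nat.cast_zero,
      Function.iterate_zero, id_eq]
    ring
  | succ k ih =>
    rw [Function.iterate_succ_apply', ih, map_add, Derivation.leibniz, mul_assoc,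
      Derivation.leibniz, Derivation.leibniz, hx, map_add, Derivation.map_natCast,
      Derivation.map_one_eq_zero]
    simp only [smul_eq_mul, ← Function.iterate_succ_apply' (f := D)]
    push_cast
    ring

theorem prod_deriv_aux {R ι : Type*} [CommRing R] [DecidableEq ι] (D : Derivation ℤ R R)
    (s : Finset ι) (f : ι → R) (h : ∀ i ∈ s, D (D (f i)) = 0) :
    D^[s.card] (∏ i ∈ s, f i) = (s.card.factorial : R) * ∏ i ∈ s, D (f i) ∧
      D^[s.card + 1] (∏ i ∈ s, f i) = 0 := by
  induction s using Finset.induction_on with
  | empty => simp
  | insert a s ha ih =>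
    obtain ⟨h1, h2⟩ := ih fun i hi => h i (Finset.mem_insert_of_mem hi)
    have hx := h a (Finset.mem_insert_self a s)
    rw [Finset.card_insert_of_notMem ha, Finset.prod_insert ha, Finset.prod_insert ha]
    constructor
    · rw [iter_mul D hx, h1, h2, Nat.factorial_succ]
      push_cast
      ring
    · rw [iter_mul D hx, h2, Function.iterate_succ_apply' (f := D), h2, map_zero]
      ring

end Pool.Agent.Lib.MP_44a246_ntW
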