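import Mathlib
import Pool.Agent.Lib.MP_44a246_ntW.W01

/-!
# The roots of an irreducible polynomial
-/

namespace Pool.Agent.Lib.MP_44a246_ntW

open Polynomial

section

variable {L Ω : Type*} [Field L] [CharZero L] [Field Ω] [IsAlgClosed Ω] [Algebra L[X] Ω]
  [FaithfulSMul L[X] Ω]

/-- the roots of `A` -/
noncomputable def rts (Ω : Type*) [Field Ω] [Algebra L[X] Ω] (A : L[X][X]) : Multiset Ω :=
  (A.map (algebraMap L[X] Ω)).roots

theorem mem_rts {A : L[X][X]} (hA : A ≠ 0) {ρ : Ω} : ρ ∈ rts Ω A ↔ aeval ρ A = 0 := by
  have hinj : Function.Injective (algebraMap L[X] Ω) := FaithfulSMul.algebraMap_injective L[X] Ω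
  have h0 : A.map (algebraMap L[X] Ω) ≠ 0 := (Polynomial.map_ne_zero_iff hinj).mpr hA
  unfold rts
  rw [Polynomial.mem_roots h0, Polynomial.IsRoot.def, Polynomial.eval_map_algebraMap]

theorem card_rts {A : L[X][X]} : (rts Ω A).card = A.natDegree := by
  -- `IsAlgClosed.splits`
  have hinj : Function.Injective (algebraMap L[X] Ω) := FaithfulSMul.algebraMap_injective L[X] Ω
  unfold rts
  rw [Polynomial.splits_iff_card_roots.mp (IsAlgClosed.splits _),
    Polynomial.natDegree_map_eq_of_injective hinj]

/-- the roots are simple -/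
theorem rts_sep {A : L[X][X]} (hA : Irreducible A) (hm : A.natDegree ≠ 0) :
    (rts Ω A).Nodup ∧ ∀ ρ ∈ rts Ω A, aeval ρ (derivative A) ≠ 0 := by
  -- With `K = FractionRing L[X]`: `A` is primitive (irreducible of positive degree), so
  -- `A.map (algebraMap L[X] K)` is irreducible
  -- (`IsPrimitive.irreducible_iff_irreducible_map_fraction_map`), so separable (characteristic
  -- zero), so its image in `Ω[X]` (`FractionRing.liftAlgebra`) is separable.
  letI : Algebra (FractionRing L[X]) Ω := FractionRing.liftAlgebra L[X] Ω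
  haveI : IsScalarTower L[X] (FractionRing L[X]) Ω := FractionRing.isScalarTower_liftAlgebra L[X] Ω
  haveI : CharZero (FractionRing L[X]) :=
    charZero_of_injective_algebraMap (IsFractionRing.injective L[X] (FractionRing L[X]))
  have hprim : A.IsPrimitive := hA.isPrimitive hm
  have hirr : Irreducible (A.map (algebraMap L[X] (FractionRing L[X]))) :=
    (hprim.irreducible_iff_irreducible_map_fraction_map).mp hA
  have hsep : (A.map (algebraMap L[X] (FractionRing L[X]))).Separable := hirr.separable
  have hmap : (A.map (algebraMap L[X] (FractionRing L[X]))).map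
      (algebraMap (FractionRing L[X]) Ω) = A.map (algebraMap L[X] Ω) := by
    rw [Polynomial.map_map, ← IsScalarTower.algebraMap_eq]
  have hsepΩ : (A.map (algebraMap L[X] Ω)).Separable := by
    rw [← hmap]
    exact hsep.map
  refine ⟨Polynomial.nodup_roots hsepΩ, fun ρ hρ => ?_⟩
  have h1 : aeval ρ (A.map (algebraMap L[X] Ω)) = 0 := by
    have := (mem_rts hA.ne_zero).mp hρ
    rw [← Polynomial.eval_map_algebraMap] at this
    simpa using this
  have h2 := hsepΩ.aeval_derivative_ne_zero h1
  rw [Polynomial.derivative_map] at h2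
  intro h3
  apply h2
  rw [← Polynomial.eval_map_algebraMap] at h3
  simpa using h3

end

end Pool.Agent.Lib.MP_44a246_ntW
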