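import Mathlib
import Pool.Agent.Lib.MP_44a246_ntW.W06

/-!
# Product of the roots, resultants
-/

namespace Pool.Agent.Lib.MP_44a246_ntW

open Polynomial

section

variable {L Ω : Type*} [Field L] [CharZero L] [Field Ω] [IsAlgClosed Ω] [Algebra L[X] Ω]
  [FaithfulSMul L[X] Ω]

theorem prod_rts {A : L[X][X]} :
    algebraMap L[X] Ω A.leadingCoeff * (rts Ω A).prod =
      (-1) ^ A.natDegree * algebraMap L[X] Ω (A.coeff 0) := by
  -- `Splits.coeff_zero_eq_leadingCoeff_mul_prod_roots` or `prod_multiset_X_sub_C...`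
  have hinj := FaithfulSMul.algebraMap_injective L[X] Ω
  have h := (IsAlgClosed.splits (A.map (algebraMap L[X] Ω))).coeff_zero_eq_leadingCoeff_mul_prod_roots
  rw [coeff_map, natDegree_map_eq_of_injective hinj, leadingCoeff_map_of_injective hinj] at h
  rw [h]
  unfold rts
  have h2 : ((-1 : Ω) ^ A.natDegree) * (-1) ^ A.natDegree = 1 := by
    rw [← mul_pow]; simp
  linear_combination (-(algebraMap L[X] Ω A.leadingCoeff *
    (A.map (algebraMap L[X] Ω)).roots.prod)) * h2

theorem res_rts {A Q : L[X][X]} {N : ℕ} (hQ : Q.natDegree ≤ N) :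
    algebraMap L[X] Ω (resultant A Q A.natDegree N) =
      algebraMap L[X] Ω A.leadingCoeff ^ N * ((rts Ω A).map fun ρ => aeval ρ Q).prod := by
  -- `resultant_map_map`, `resultant_eq_prod_eval`
  have hinj := FaithfulSMul.algebraMap_injective L[X] Ω
  have h := resultant_eq_prod_eval (A.map (algebraMap L[X] Ω)) (Q.map (algebraMap L[X] Ω)) N
    (natDegree_map_le.trans hQ) (IsAlgClosed.splits _)
  rw [natDegree_map_eq_of_injective hinj, leadingCoeff_map_of_injective hinj,
    resultant_map_map] at h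
  rw [h]
  unfold rts
  congr 3
  funext ρ
  exact eval_map_algebraMap _ _

end

end Pool.Agent.Lib.MP_44a246_ntW
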