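import Mathlib
import Pool.Agent.Lib.MP_44a246_ntW.W01

/-!
# Fractions killed by a coefficientwise derivation
-/

namespace Pool.Agent.Lib.MP_44a246_ntW

open Polynomial

section

variable {L Ω : Type*} [Field L] [CharZero L] [Field Ω] [Algebra L[X] Ω] [FaithfulSMul L[X] Ω]

omit [CharZero L] in
private lemma w08_pow (D : Derivation ℤ L L) (P : L[X]) (k : ℕ) :
    cp D (P ^ (k + 1)) = ((k + 1 : ℕ) : L[X]) * P ^ k * cp D P := by
  induction k with
  | zero => simp
  | succ k ih =>
    rw [pow_succ, cp_mul, ih]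
    push_cast
    ring

omit [CharZero L] in
private lemma w08_one (D : Derivation ℤ L L) : cp D (1 : L[X]) = 0 := by
  have := cp_natCast D 1
  rwa [Nat.cast_one] at this

/-- the monic denominator of a fraction which is killed is killed -/
theorem cp_denom {D : Derivation ℤ L L} {D' : Derivation ℤ Ω Ω}
    (h : ∀ P : L[X], D' (algebraMap L[X] Ω P) = algebraMap L[X] Ω (cp D P)) {u v : L[X]}
    (hv : v.Monic) (huv : IsCoprime u v)
    (h0 : D' (algebraMap L[X] Ω u / algebraMap L[X] Ω v) = 0) : cp D v = 0 := by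
  have hinj : Function.Injective (algebraMap L[X] Ω) := FaithfulSMul.algebraMap_injective _ _
  have hv0 : algebraMap L[X] Ω v ≠ 0 := by
    rw [Ne, map_eq_zero_iff _ hinj]
    exact hv.ne_zero
  have h1 : D' (algebraMap L[X] Ω u) =
      (algebraMap L[X] Ω u / algebraMap L[X] Ω v) * D' (algebraMap L[X] Ω v) := by
    have h2 : algebraMap L[X] Ω u =
        (algebraMap L[X] Ω u / algebraMap L[X] Ω v) * algebraMap L[X] Ω v := by
      field_simp
    conv_lhs => rw [h2]
    rw [Derivation.leibniz, h0, smul_zero, add_zero, smul_eq_mul]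
  rw [h, h] at h1
  have h3 : v * cp D u = u * cp D v := by
    apply hinj
    rw [map_mul, map_mul, h1]
    field_simp
  have h4 : v ∣ cp D v := huv.symm.dvd_of_dvd_mul_left ⟨_, h3.symm⟩
  exact eq_zero_of_dvd_of_degree_lt h4 (degree_cp_lt D hv)

private lemma w08_irr {D : Derivation ℤ L L} {v π : L[X]} (hv : v.Monic) (h0 : cp D v = 0)
    (hπ : π.Monic) (hirr : Irreducible π) (hd : π ∣ v) : cp D π = 0 := by
  obtain ⟨e, w, hw, rfl⟩ : ∃ (e : ℕ) (w : L[X]), ¬ π ∣ w ∧ v = π ^ e * w := by
    obtain ⟨w, hw1, hw2⟩ :=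
      (FiniteMultiplicity.of_not_isUnit hirr.not_isUnit hv.ne_zero).exists_eq_pow_mul_and_not_dvd
    exact ⟨_, w, hw2, hw1⟩
  obtain ⟨e, rfl⟩ : ∃ k, e = k + 1 := by
    rcases e with _ | k
    · rw [pow_zero, one_mul] at hd
      exact absurd hd hw
    · exact ⟨k, rfl⟩
  have hp : Prime π := hirr.prime
  rw [cp_mul, w08_pow] at h0
  have h1 : π ^ e * (π * cp D w + ((e + 1 : ℕ) : L[X]) * (w * cp D π)) = 0 := by
    rw [← h0]; ring
  have h2 := (mul_eq_zero.1 h1).resolve_left (pow_ne_zero _ hirr.ne_zero)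
  have h3 : π ∣ ((e + 1 : ℕ) : L[X]) * (w * cp D π) :=
    (dvd_add_right (dvd_mul_right π _)).1 (by rw [h2]; exact dvd_zero _)
  have h4 : IsUnit ((e + 1 : ℕ) : L[X]) := by
    rw [← C_eq_natCast, isUnit_C, isUnit_iff_ne_zero]
    exact Nat.cast_ne_zero.2 (Nat.succ_ne_zero e)
  rw [h4.dvd_mul_left] at h3
  have h5 := (hp.dvd_or_dvd h3).resolve_left hw
  exact eq_zero_of_dvd_of_degree_lt h5 (degree_cp_lt D hπ)

/-- a monic divisor of a killed monic polynomial is killed -/
theorem cp_dvd {D : Derivation ℤ L L} {v q : L[X]} (hv : v.Monic) (h0 : cp D v = 0)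
    (hq : q.Monic) (hqv : q ∣ v) : cp D q = 0 := by
  obtain ⟨n, hn⟩ : ∃ n, v.natDegree = n := ⟨_, rfl⟩
  induction n using Nat.strong_induction_on generalizing v q with
  | _ n ih =>
    by_cases hq1 : q = 1
    · rw [hq1]; exact w08_one D
    · have hqu : ¬ IsUnit q := fun hu => hq1 (hq.eq_one_of_isUnit hu)
      obtain ⟨π, hπ, hirr, q', rfl⟩ := exists_monic_irreducible_factor q hqu
      obtain ⟨t, ht⟩ := hqv
      have hπv : π ∣ v := ⟨q' * t, by rw [ht]; ring⟩
      have hπ0 := w08_irr hv h0 hπ hirr hπv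
      have hv' : v = π * (q' * t) := by rw [ht]; ring
      have hm' : (q' * t).Monic := hπ.of_mul_monic_left (hv' ▸ hv)
      have hq' : q'.Monic := hπ.of_mul_monic_left hq
      have h1 : cp D (q' * t) = 0 := by
        rw [hv', cp_mul, hπ0, mul_zero, add_zero] at h0
        exact (mul_eq_zero.1 h0).resolve_left hirr.ne_zero
      have hdeg : (q' * t).natDegree < n := by
        rw [← hn, hv', hπ.natDegree_mul hm']
        have := hirr.natDegree_pos
        omega
      have h2 := ih _ hdeg hm' h1 hq' (dvd_mul_right _ _) rfl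
      rw [cp_mul, h2, hπ0, mul_zero, mul_zero, add_zero]

/-- iterated derivatives of a fraction -/
theorem iterate_frac {D : Derivation ℤ L L} {D' : Derivation ℤ Ω Ω}
    (h : ∀ P : L[X], D' (algebraMap L[X] Ω P) = algebraMap L[X] Ω (cp D P)) {p q : L[X]}
    (hq : q ≠ 0) (k : ℕ) : ∃ P : L[X], P.natDegree ≤ p.natDegree + k * q.natDegree ∧
      D'^[k] (algebraMap L[X] Ω p / algebraMap L[X] Ω q) =
        algebraMap L[X] Ω P / algebraMap L[X] Ω q ^ (k + 1) := by
  have hinj : Function.Injective (algebraMap L[X] Ω) := FaithfulSMul.algebraMap_injective _ _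
  have hq0 : algebraMap L[X] Ω q ≠ 0 := by
    rw [Ne, map_eq_zero_iff _ hinj]
    exact hq
  induction k with
  | zero => exact ⟨p, by simp, by simp⟩
  | succ k ih =>
    obtain ⟨P, hP, hk⟩ := ih
    refine ⟨q * cp D P - ((k + 1 : ℕ) : L[X]) * (P * cp D q), ?_, ?_⟩
    · have e1 : (q * cp D P).natDegree ≤ q.natDegree + P.natDegree :=
        natDegree_mul_le.trans (Nat.add_le_add_left (natDegree_cp_le D P) _)
      have e2 : (((k + 1 : ℕ) : L[X]) * (P * cp D q)).natDegree ≤ P.natDegree + q.natDegree := by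
        refine natDegree_mul_le.trans ?_
        rw [natDegree_natCast, zero_add]
        exact natDegree_mul_le.trans (Nat.add_le_add_left (natDegree_cp_le D q) _)
      refine (natDegree_sub_le _ _).trans (max_le ?_ ?_)
      · rw [add_mul, one_mul]; omega
      · rw [add_mul, one_mul]; omega
    · rw [Function.iterate_succ_apply', hk, Derivation.leibniz_div, Derivation.leibniz_pow, h, h]
      simp only [smul_eq_mul, nsmul_eq_mul, Nat.add_sub_cancel, map_sub, map_mul, map_natCast]
      push_cast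
      field_simp
      try ring

end

end Pool.Agent.Lib.MP_44a246_ntW
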