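import Mathlib
import Pool.Agent.Lib.MP_44a246_ntW.W08

/-!
# Denominators of constants which are iterated derivatives
-/

namespace Pool.Agent.Lib.MP_44a246_ntW

open Polynomial

section

variable {L Ω : Type*} [Field L] [CharZero L] [Field Ω] [CharZero Ω] [Algebra L[X] Ω]
  [FaithfulSMul L[X] Ω]

omit [CharZero Ω] in
theorem exists_split {D : Derivation ℤ L L} {v : L[X]} (hv : v.Monic) (h0 : cp D v = 0) :
    ∀ (n : ℕ) (q : L[X]), q ≠ 0 → q.natDegree ≤ n →
      ∃ q₁ q₂ : L[X], q = q₁ * q₂ ∧ q₁.Monic ∧ cp D q₁ = 0 ∧ IsCoprime q₂ v := by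
  have hone : cp D (1 : L[X]) = 0 := by
    have := cp_natCast D 1
    rwa [Nat.cast_one] at this
  intro n
  induction n with
  | zero =>
    intro q hq hn
    refine ⟨1, q, (one_mul q).symm, monic_one, hone, ?_⟩
    have h1 : IsUnit q := by
      rw [isUnit_iff_degree_eq_zero, degree_eq_natDegree hq]
      simp [Nat.le_zero.mp hn]
    obtain ⟨r, hr⟩ := h1.exists_left_inv
    exact ⟨r, 0, by rw [hr, zero_mul, add_zero]⟩
  | succ n ih =>
    intro q hq hn
    by_cases hc : IsCoprime q v
    · exact ⟨1, q, (one_mul q).symm, monic_one, hone, hc⟩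
    · obtain ⟨z, hz, hzq, hzv⟩ : ∃ z, Irreducible z ∧ z ∣ q ∧ z ∣ v := by
        by_contra hcon
        push Not at hcon
        exact hc (isCoprime_of_irreducible_dvd (fun h => hq h.1) fun z hz h1 h2 =>
          hcon z hz h1 h2)
      have hz0 : z ≠ 0 := hz.ne_zero
      have hlc : z.leadingCoeff ≠ 0 := leadingCoeff_ne_zero.mpr hz0
      set π := z * C z.leadingCoeff⁻¹ with hπ
      have hπm : π.Monic := monic_mul_leadingCoeff_inv hz0
      have hπz : z = π * C z.leadingCoeff := by
        rw [hπ, mul_assoc, ← C_mul, inv_mul_cancel₀ hlc, C_1, mul_one]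
      have hπv : π ∣ v := by
        obtain ⟨t, ht⟩ := hzv
        exact ⟨C z.leadingCoeff * t, by rw [← mul_assoc, ← hπz]; exact ht⟩
      have hπ0 : cp D π = 0 := cp_dvd hv h0 hπm hπv
      obtain ⟨t, ht⟩ := hzq
      have hq' : q = π * (C z.leadingCoeff * t) := by
        rw [← mul_assoc, ← hπz]; exact ht
      set q' := C z.leadingCoeff * t with hq'd
      have hq'0 : q' ≠ 0 := by
        intro h
        apply hq
        rw [hq', h, mul_zero]
      have hdeg : q.natDegree = π.natDegree + q'.natDegree := by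
        rw [hq', natDegree_mul hπm.ne_zero hq'0]
      have hπd : π.natDegree = z.natDegree := by
        rw [hπ, natDegree_mul hz0 (C_ne_zero.mpr (inv_ne_zero hlc)), natDegree_C, add_zero]
      have hzd : 0 < z.natDegree := hz.natDegree_pos
      obtain ⟨q₁, q₂, h1, h2, h3, h4⟩ := ih q' hq'0 (by omega)
      refine ⟨π * q₁, q₂, ?_, hπm.mul h2, ?_, h4⟩
      · rw [hq', h1]
        ring
      · rw [cp_mul, h3, hπ0, mul_zero, mul_zero, add_zero]

omit [CharZero L] [CharZero Ω] in
theorem iterate_div {D' : Derivation ℤ Ω Ω} {e : Ω} (he : e ≠ 0) (h0 : D' e = 0) (k : ℕ)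
    (x : Ω) : D'^[k] (x / e) = D'^[k] x / e := by
  induction k generalizing x with
  | zero => rfl
  | succ k ih =>
    rw [Function.iterate_succ_apply, Function.iterate_succ_apply]
    have h1 : D' (x / e) = D' x / e := by
      rw [Derivation.leibniz_div, h0]
      simp only [smul_eq_mul, mul_zero, sub_zero]
      field_simp
    rw [h1, ih]

/-- If a constant `f = u / v` is, up to a nonzero integer, an iterated derivative of `p / q` then
`q f` is a polynomial of degree at most `natDegree p`. -/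
theorem const_frac {D : Derivation ℤ L L} {D' : Derivation ℤ Ω Ω}
    (h : ∀ P : L[X], D' (algebraMap L[X] Ω P) = algebraMap L[X] Ω (cp D P)) {u v p q : L[X]}
    (hv : v.Monic) (huv : IsCoprime u v) (hq : q ≠ 0)
    (h0 : D' (algebraMap L[X] Ω u / algebraMap L[X] Ω v) = 0) {c k : ℕ} (hc : c ≠ 0)
    (hck : (c : Ω) * (algebraMap L[X] Ω u / algebraMap L[X] Ω v) =
      D'^[k] (algebraMap L[X] Ω p / algebraMap L[X] Ω q)) :
    ∃ H : L[X], H.natDegree ≤ p.natDegree ∧
      algebraMap L[X] Ω q * (algebraMap L[X] Ω u / algebraMap L[X] Ω v) = algebraMap L[X] Ω H := by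
  -- If `u = 0` take `H = 0`. `cp D v = 0` (`cp_denom`). Let `q₁ = gcd(q, v ^ N)`, monic, with
  -- `N = q.natDegree`, and `q = q₁ q₂`; then `q₂` and `v` are coprime (an irreducible common factor
  -- `π` of `q₂` and `v` : `π ^ (N + 1)` does not divide `q`, the multiplicity of `π` in `q₁` is the
  -- minimum of the multiplicities in `q` and in `v ^ N`, i.e. that in `q`). `cp D q₁ = 0` by
  -- `cp_dvd` (`q₁ ∣ v ^ N`, `cp_pow_eq_zero`). So `q₁ D'^[k] (p / q) = D'^[k] (p / q₂)
  -- = P / q₂ ^ (k + 1)` (`iterate_frac`), `c q₁ u q₂ ^ (k + 1) = v P`, so `v ∣ q₁`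
  -- (`v` is coprime to `u` and `q₂`, `c ≠ 0`), so `v ∣ q`, `q = v q'`, `H = u q'`.
  -- Degree: `iterate_frac` for `p / q`: `c u q ^ (k + 1) = v P'`, so
  -- `deg u + (k + 1) deg q ≤ deg v + deg p + k deg q` and `deg H = deg u + deg q - deg v`.
  have hinj : Function.Injective (algebraMap L[X] Ω) := FaithfulSMul.algebraMap_injective _ _
  by_cases hu : u = 0
  · refine ⟨0, by simp, ?_⟩
    rw [hu, map_zero, zero_div, mul_zero]
  have hne : ∀ {P : L[X]}, P ≠ 0 → algebraMap L[X] Ω P ≠ 0 := fun {P} hP h' =>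
    hP (hinj (by rw [h', map_zero]))
  have hv0 : v ≠ 0 := hv.ne_zero
  have hcpv : cp D v = 0 := cp_denom h hv huv h0
  have hcL : ((c : ℕ) : L[X]) ≠ 0 := Nat.cast_ne_zero.mpr hc
  -- the divisibility `v ∣ q`
  have hvq : v ∣ q := by
    obtain ⟨q₁, q₂, h1, h2, h3, h4⟩ := exists_split hv hcpv q.natDegree q hq le_rfl
    have hq₁ : q₁ ≠ 0 := h2.ne_zero
    have hq₂ : q₂ ≠ 0 := by
      intro h'
      apply hq
      rw [h1, h', mul_zero]
    have hD₁ : D' (algebraMap L[X] Ω q₁) = 0 := by rw [h, h3, map_zero]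
    obtain ⟨P, -, hP⟩ := iterate_frac h hq₂ k (p := p)
    have h5 : algebraMap L[X] Ω p / algebraMap L[X] Ω q =
        algebraMap L[X] Ω p / algebraMap L[X] Ω q₂ / algebraMap L[X] Ω q₁ := by
      rw [h1, map_mul, div_div, mul_comm]
    rw [h5, iterate_div (hne hq₁) hD₁, hP] at hck
    have h6 : (c : L[X]) * u * (q₁ * q₂ ^ (k + 1)) = v * P := by
      apply hinj
      simp only [map_mul, map_pow, map_natCast]
      have e1 := hne hv0
      have e2 := hne hq₁
      have e3 := hne hq₂
      field_simp at hck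
      linear_combination hck
    have h7 : v ∣ (c : L[X]) * u * (q₁ * q₂ ^ (k + 1)) := ⟨P, h6⟩
    have h8 : IsCoprime v ((c : L[X]) * u) := by
      refine IsCoprime.mul_right ?_ huv.symm
      have : IsUnit ((c : ℕ) : L[X]) := by
        rw [← map_natCast (C : L →+* L[X])]
        exact (IsUnit.mk0 _ (Nat.cast_ne_zero.mpr hc)).map C
      obtain ⟨r, hr⟩ := this.exists_left_inv
      exact ⟨0, r, by rw [hr, zero_mul, zero_add]⟩
    have h9 : v ∣ q₁ * q₂ ^ (k + 1) := h8.dvd_of_dvd_mul_left h7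
    have h10 : IsCoprime v (q₂ ^ (k + 1)) := h4.symm.pow_right
    have h11 : v ∣ q₁ := h10.dvd_of_dvd_mul_right h9
    rw [h1]
    exact h11.mul_right _
  obtain ⟨q', hq'⟩ := hvq
  have hq'0 : q' ≠ 0 := by
    rintro rfl
    apply hq
    rw [hq', mul_zero]
  refine ⟨u * q', ?_, ?_⟩
  · obtain ⟨P, hPd, hP⟩ := iterate_frac h hq k (p := p)
    rw [hP] at hck
    have h6 : (c : L[X]) * u * q ^ (k + 1) = v * P := by
      apply hinj
      simp only [map_mul, map_pow, map_natCast]
      have e1 := hne hv0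
      have e2 := hne hq
      field_simp at hck
      linear_combination hck
    have hP0 : P ≠ 0 := by
      rintro rfl
      rw [mul_zero] at h6
      exact mul_ne_zero (mul_ne_zero hcL hu) (pow_ne_zero _ hq) h6
    have h7 := congrArg natDegree h6
    rw [natDegree_mul (mul_ne_zero hcL hu) (pow_ne_zero _ hq), natDegree_mul hcL hu,
      natDegree_natCast, zero_add, natDegree_pow, natDegree_mul hv0 hP0] at h7
    have h8 : q.natDegree = v.natDegree + q'.natDegree := by
      rw [hq', natDegree_mul hv0 hq'0]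
    rw [natDegree_mul hu hq'0]
    have h9 : (k + 1) * q.natDegree = k * q.natDegree + q.natDegree := by ring
    omega
  · rw [hq', map_mul, map_mul]
    have e1 := hne hv0
    field_simp

end

end Pool.Agent.Lib.MP_44a246_ntW
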