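import Mathlib
import Pool.Agent.Lib.MP_44a246_ntW.W02
import Pool.Agent.Lib.MP_44a246_ntW.W03
import Pool.Agent.Lib.MP_44a246_ntW.W05
import Pool.Agent.Lib.MP_44a246_ntW.W07
import Pool.Agent.Lib.MP_44a246_ntW.W11

/-!
# The norm form has small degree: integral coefficients
-/

namespace Pool.Agent.Lib.MP_44a246_ntW

open Polynomial

/-- the linear combinations of the polynomials `- D j A` -/
noncomputable def Qc {L : Type*} [Field L] {n : ℕ} (D : Fin (n + 1) → Derivation ℤ L L)
    (A : L[X][X]) (c : Fin (n + 1) → L) : L[X][X] := ∑ j, C (C (c j)) * -cq (D j) A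

section NormNatAux

private theorem w12_sum_apply {R ι : Type*} [CommRing R] (s : Finset ι)
    (f : ι → Derivation ℤ R R) (x : R) : (∑ j ∈ s, f j) x = ∑ j ∈ s, f j x := by
  classical
  induction s using Finset.induction_on with
  | empty => simp
  | insert a s ha ih => rw [Finset.sum_insert ha, Finset.sum_insert ha, Derivation.add_apply, ih]

private theorem w12_comb_apply {R : Type*} [CommRing R] {n : ℕ} (D : Fin (n + 1) → Derivation ℤ R R)
    (c : Fin (n + 1) → ℕ) (x : R) : (∑ j, c j • D j) x = ∑ j, c j • D j x := by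
  rw [w12_sum_apply]
  rfl

variable {L : Type*} [Field L]

private theorem w12_cp {n : ℕ} (D : Fin (n + 1) → Derivation ℤ L L) (c : Fin (n + 1) → ℕ)
    (P : L[X]) : cp (∑ j, c j • D j) P = ∑ j, c j • cp (D j) P := by
  ext i
  rw [cp_coeff, w12_comb_apply, finsetSum_coeff]
  refine Finset.sum_congr rfl fun j _ => ?_
  rw [coeff_smul, cp_coeff]

private theorem w12_Qc {n : ℕ} (D : Fin (n + 1) → Derivation ℤ L L) (A : L[X][X])
    (c : Fin (n + 1) → ℕ) : (Qc D A fun j => (c j : L)) = -cq (∑ j, c j • D j) A := by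
  ext1 i
  rw [Qc, finsetSum_coeff, coeff_neg, cq_coeff, w12_cp, ← Finset.sum_neg_distrib]
  refine Finset.sum_congr rfl fun j _ => ?_
  rw [coeff_C_mul, coeff_neg, cq_coeff, nsmul_eq_mul, C_eq_natCast]
  ring

private theorem w12_natDegree (D : Derivation ℤ L L) (A : L[X][X]) :
    (-cq D A).natDegree ≤ A.natDegree := by
  rw [natDegree_neg, natDegree_le_iff_coeff_eq_zero]
  intro N hN
  rw [cq_coeff, coeff_eq_zero_of_natDegree_lt hN]
  ext i
  rw [cp_coeff, coeff_zero, map_zero]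

private theorem w12_aux {L : Type*} [Field L] [CharZero L] {Ω : Type*} [Field Ω] [CharZero Ω]
    [IsAlgClosed Ω] [Algebra L[X] Ω] [FaithfulSMul L[X] Ω] [Algebra.IsAlgebraic L[X] Ω]
    {n b : ℕ} {A : L[X][X]} (hA : Irreducible A)
    (hm : A.natDegree ≠ 0) (hb : ∀ i, (A.coeff i).natDegree ≤ b)
    (D : Fin (n + 1) → Derivation ℤ L L) (hE : ∀ i j, A ∣ EE (D i) (D j) A)
    (c : Fin (n + 1) → ℕ) :
    ∃ H : L[X], H.natDegree ≤ b ∧
      A.leadingCoeff * resultant A (Qc D A fun j => (c j : L)) A.natDegree A.natDegree =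
        resultant A (derivative A) A.natDegree A.natDegree * H := by
  classical
  have hA0 : A ≠ 0 := hA.ne_zero
  have hinj : Function.Injective (algebraMap L[X] Ω) := FaithfulSMul.algebraMap_injective _ _
  choose D' hD' using fun j => exists_ext (Ω := Ω) (D j)
  set Dc : Derivation ℤ L L := ∑ j, c j • D j with hDc
  set Dc' : Derivation ℤ Ω Ω := ∑ j, c j • D' j with hDc'
  have hcomb : ∀ x, Dc' x = ∑ j, c j • D' j x := fun x => w12_comb_apply D' c x
  have hext : ∀ P : L[X], Dc' (algebraMap L[X] Ω P) = algebraMap L[X] Ω (cp Dc P) := by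
    intro P
    rw [hcomb, hDc, w12_cp, map_sum]
    refine Finset.sum_congr rfl fun j _ => ?_
    rw [hD', map_nsmul]
  obtain ⟨hnd, hsep⟩ := rts_sep (Ω := Ω) hA hm
  -- the roots
  set s : Finset Ω := ⟨rts Ω A, hnd⟩ with hs
  have hscard : s.card = A.natDegree := card_rts
  have hmem : ∀ ρ ∈ s, aeval ρ A = 0 := fun ρ hρ => (mem_rts hA0).1 hρ
  have hder : ∀ ρ ∈ s, aeval ρ (derivative A) ≠ 0 := fun ρ hρ => hsep ρ hρ
  set Q : L[X][X] := Qc D A fun j => (c j : L) with hQ
  have hQ2 : Q = -cq Dc A := w12_Qc D A c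
  have hroot : ∀ ρ ∈ s, Dc' ρ * aeval ρ (derivative A) = aeval ρ Q := by
    intro ρ hρ
    rw [D_root hext (hmem ρ hρ) (hder ρ hρ), yv, ← hQ2, div_mul_cancel₀ _ (hder ρ hρ)]
  have hDD : ∀ ρ ∈ s, Dc' (Dc' ρ) = 0 := by
    intro ρ hρ
    rw [hcomb ρ, map_sum]
    refine Finset.sum_eq_zero fun j _ => ?_
    rw [map_nsmul, D_root (hD' j) (hmem ρ hρ) (hder ρ hρ), hcomb]
    rw [Finset.sum_eq_zero, smul_zero]
    intro i _
    rw [D_yv (hD' i) (hmem ρ hρ) (hder ρ hρ) (hE j i), smul_zero]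
  set f : Ω := ∏ ρ ∈ s, Dc' ρ with hf
  obtain ⟨h1, h2⟩ := prod_deriv_aux Dc' s (fun ρ => ρ) hDD
  rw [hscard] at h1 h2
  have hfact : ((A.natDegree.factorial : ℕ) : Ω) ≠ 0 := by
    exact_mod_cast A.natDegree.factorial_ne_zero
  have hf0 : Dc' f = 0 := by
    rw [Function.iterate_succ_apply', h1, Derivation.leibniz] at h2
    have h3 : Dc' ((A.natDegree.factorial : ℕ) : Ω) = 0 := Derivation.map_natCast _ _
    rw [h3, smul_zero, add_zero, smul_eq_mul] at h2
    exact (mul_eq_zero.1 h2).resolve_left hfact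
  -- the product of the roots
  have hprod : (∏ ρ ∈ s, ρ) = (rts Ω A).prod := by
    rw [Finset.prod_eq_multiset_prod, Multiset.map_id']
  have hlc0 : A.leadingCoeff ≠ 0 := leadingCoeff_ne_zero.2 hA0
  have hlc : algebraMap L[X] Ω A.leadingCoeff ≠ 0 := by
    rw [ne_eq, map_eq_zero_iff _ hinj]
    exact hlc0
  have hprod2 : (∏ ρ ∈ s, ρ) =
      algebraMap L[X] Ω ((-1) ^ A.natDegree * A.coeff 0) / algebraMap L[X] Ω A.leadingCoeff := by
    rw [hprod, eq_div_iff hlc, mul_comm, prod_rts, map_mul, map_pow, map_neg, map_one]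
  -- resultants
  have hr1 := res_rts (Ω := Ω) (A := A) (Q := Q) (N := A.natDegree) (by
    rw [hQ2]; exact w12_natDegree Dc A)
  have hr2 := res_rts (Ω := Ω) (A := A) (Q := derivative A) (N := A.natDegree)
    ((natDegree_derivative_le A).trans (Nat.sub_le _ _))
  have hm1 : ((rts Ω A).map fun ρ => aeval ρ Q).prod = ∏ ρ ∈ s, aeval ρ Q := rfl
  have hm2 : ((rts Ω A).map fun ρ => aeval ρ (derivative A)).prod =
      ∏ ρ ∈ s, aeval ρ (derivative A) := rfl
  rw [hm1] at hr1
  rw [hm2] at hr2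
  have hfQ : f * ∏ ρ ∈ s, aeval ρ (derivative A) = ∏ ρ ∈ s, aeval ρ Q := by
    rw [hf, ← Finset.prod_mul_distrib]
    exact Finset.prod_congr rfl hroot
  set g : L[X] := resultant A Q A.natDegree A.natDegree with hg
  set r : L[X] := resultant A (derivative A) A.natDegree A.natDegree with hr
  have hr0' : algebraMap L[X] Ω r ≠ 0 := by
    rw [hr2]
    exact mul_ne_zero (pow_ne_zero _ hlc) (Finset.prod_ne_zero_iff.2 hder)
  have hr0 : r ≠ 0 := by
    intro h
    rw [h, map_zero] at hr0'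
    exact hr0' rfl
  have hfr : f * algebraMap L[X] Ω r = algebraMap L[X] Ω g := by
    rw [hr1, hr2, ← hfQ]
    ring
  -- reduced fraction
  set z : RatFunc L := algebraMap L[X] (RatFunc L) g / algebraMap L[X] (RatFunc L) r with hz
  have hzz : z.num * r = g * z.denom := (RatFunc.num_mul_eq_mul_denom_iff hr0).2 hz
  have hv0 : algebraMap L[X] Ω z.denom ≠ 0 := by
    rw [ne_eq, map_eq_zero_iff _ hinj]
    exact z.denom_ne_zero
  have hfz : f = algebraMap L[X] Ω z.num / algebraMap L[X] Ω z.denom := by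
    rw [eq_div_iff hv0]
    have h3 := congrArg (algebraMap L[X] Ω) hzz
    rw [map_mul, map_mul, ← hfr] at h3
    have h4 : algebraMap L[X] Ω r * (f * algebraMap L[X] Ω z.denom) =
        algebraMap L[X] Ω r * algebraMap L[X] Ω z.num := by
      linear_combination -h3
    exact mul_left_cancel₀ hr0' h4
  obtain ⟨H, hH1, hH2⟩ := const_frac hext (RatFunc.monic_denom z) (RatFunc.isCoprime_num_denom z)
    hlc0 (p := (-1) ^ A.natDegree * A.coeff 0) (by rw [← hfz]; exact hf0)
    (c := A.natDegree.factorial) (k := A.natDegree) A.natDegree.factorial_ne_zero (by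
      rw [← hfz, ← hprod2, h1])
  refine ⟨H, hH1.trans ?_, ?_⟩
  · refine le_trans ?_ (hb 0)
    have h3 : ((-1 : L[X]) ^ A.natDegree * A.coeff 0).natDegree ≤
        ((-1 : L[X]) ^ A.natDegree).natDegree + (A.coeff 0).natDegree := natDegree_mul_le
    have h4 : ((-1 : L[X]) ^ A.natDegree).natDegree = 0 := by
      have h5 : ((-1 : L[X]) ^ A.natDegree).natDegree ≤ A.natDegree * (-1 : L[X]).natDegree :=
        natDegree_pow_le
      rw [natDegree_neg, natDegree_one, mul_zero] at h5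
      omega
    omega
  · apply hinj
    rw [map_mul, map_mul, ← hH2, ← hfz, ← hfr]
    ring

end NormNatAux

/-- **The norm of an integral combination.** -/
theorem norm_nat {L : Type*} [Field L] [CharZero L] {n b : ℕ} {A : L[X][X]} (hA : Irreducible A)
    (hm : A.natDegree ≠ 0) (hb : ∀ i, (A.coeff i).natDegree ≤ b)
    (D : Fin (n + 1) → Derivation ℤ L L) (hE : ∀ i j, A ∣ EE (D i) (D j) A)
    (c : Fin (n + 1) → ℕ) :
    ∃ H : L[X], H.natDegree ≤ b ∧
      A.leadingCoeff * resultant A (Qc D A fun j => (c j : L)) A.natDegree A.natDegree =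
        resultant A (derivative A) A.natDegree A.natDegree * H := by
  -- `Ω = AlgebraicClosure (FractionRing L[X])`, `m = A.natDegree`, `D' j` from `exists_ext`,
  -- `Dc = ∑ j, c j • D j`, `Dc' = ∑ j, c j • D' j` extends `Dc`. Roots `ρ ∈ rts Ω A`, simple
  -- (`rts_sep`). `Dc' ρ = ∑ j, c j * yv (D j) A ρ` (`D_root`) and `Dc' (Dc' ρ) = 0` (`D_yv`).
  -- `f = ∏ ρ, Dc' ρ`: `m! f = Dc'^[m] (∏ ρ)` (`prod_deriv_aux` for the finset of the roots), and
  -- `∏ ρ = (-1) ^ m A_0 / lc` (`prod_rts`). `Dc' f = 0` (product of elements killed by `Dc'`).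
  -- `f * ∏ A_Y(ρ) = ∏ (Qc D A c)(ρ)` (`yv` is a quotient), so by `res_rts` with `N = m`
  -- `f * res A A_Y = res A Q` in `Ω`; `res A A_Y ≠ 0`. So `f = g / r` with `g, r : L[X]`; divide by
  -- the greatest common divisor: `f = u / v`, `v` monic, coprime. `const_frac` with
  -- `p = (-1) ^ m * A_0` (degree `≤ b`), `q = lc`, `k = m`, `c = m!`.
  let K := FractionRing L[X]
  let Ω := AlgebraicClosure K
  have h1 : Function.Injective (algebraMap L[X] Ω) := by
    rw [IsScalarTower.algebraMap_eq L[X] K Ω]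
    exact (algebraMap K Ω).injective.comp (IsFractionRing.injective L[X] K)
  have h2 : FaithfulSMul L[X] Ω := (faithfulSMul_iff_algebraMap_injective _ _).2 h1
  have h3 : CharZero Ω := charZero_of_injective_algebraMap h1
  have h4 : Algebra.IsAlgebraic K Ω := inferInstance
  have h5 : Algebra.IsAlgebraic L[X] Ω :=
    (IsFractionRing.comap_isAlgebraic_iff (A := L[X]) (K := K) (C := Ω)).2 h4
  exact w12_aux (Ω := Ω) hA hm hb D hE c

end Pool.Agent.Lib.MP_44a246_ntW
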