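import Mathlib

/-!
# Interpolation: polynomial maps with values in a subspace at integral points
-/

namespace Pool.Agent.Lib.MP_44a246_ntW

open MvPolynomial

/-- A polynomial map with coefficients in a vector space whose values at all points with natural
coordinates are in a subspace has all its values in the subspace. -/
theorem interpol {L V : Type*} [Field L] [CharZero L] [AddCommGroup V] [Module L V]
    (W : Submodule L V) {n : ℕ} (S : Finset (Fin n →₀ ℕ)) (v : (Fin n →₀ ℕ) → V)
    (h : ∀ c : Fin n → ℕ, ∑ μ ∈ S, (∏ j, (c j : L) ^ μ j) • v μ ∈ W) (c : Fin n → L) :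
    ∑ μ ∈ S, (∏ j, c j ^ μ j) • v μ ∈ W := by
  -- It is enough that `v μ ∈ W` for `μ ∈ S`. Otherwise there is a linear form `φ` on `V` which
  -- vanishes on `W` but not on `v μ` (`Submodule.exists_le_ker_of_notMem` or a basis of `V ⧸ W`);
  -- the polynomial `∑ μ ∈ S, monomial μ (φ (v μ))` vanishes at all points with natural coordinates,
  -- so it is zero (`MvPolynomial.funext_set` for the infinite set of natural numbers in `L`), and
  -- its coefficient at `μ` is `φ (v μ)`.
  have key : ∀ μ ∈ S, v μ ∈ W := by
    intro μ hμ
    by_contra hμW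
    have h0 : W.mkQ (v μ) ≠ 0 := by
      rw [Submodule.mkQ_apply, Ne, Submodule.Quotient.mk_eq_zero]
      exact hμW
    obtain ⟨φ, hφ⟩ : ∃ φ : Module.Dual L (V ⧸ W), φ (W.mkQ (v μ)) ≠ 0 := by
      by_contra hno
      push Not at hno
      exact h0 ((Module.forall_dual_apply_eq_zero_iff L _).1 hno)
    set p : MvPolynomial (Fin n) L := ∑ ν ∈ S, monomial ν (φ (W.mkQ (v ν))) with hp
    have hev : ∀ c : Fin n → L, eval c p = φ (W.mkQ (∑ ν ∈ S, (∏ j, c j ^ ν j) • v ν)) := by
      intro c
      rw [hp, map_sum, map_sum, map_sum]
      refine Finset.sum_congr rfl fun ν _ => ?_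
      rw [eval_monomial, map_smul, map_smul, smul_eq_mul, mul_comm]
      congr 1
      rw [Finsupp.prod_fintype]
      intro i
      exact pow_zero _
    have hz : p = 0 := by
      apply MvPolynomial.funext_set (fun _ => Set.range (Nat.cast : ℕ → L))
      · intro _
        exact Set.infinite_range_of_injective Nat.cast_injective
      · intro x hx
        have hx' : ∀ j, ∃ m : ℕ, (m : L) = x j := fun j => hx j (Set.mem_univ j)
        choose m hm using hx'
        have e : x = fun j => (m j : L) := funext fun j => (hm j).symm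
        rw [hev, map_zero, e]
        have h1 : W.mkQ (∑ ν ∈ S, (∏ j, ((m j : L)) ^ ν j) • v ν) = 0 := by
          rw [Submodule.mkQ_apply, Submodule.Quotient.mk_eq_zero]
          exact h m
        rw [h1, map_zero]
    have hc : coeff μ p = φ (W.mkQ (v μ)) := by
      classical
      rw [hp, coeff_sum]
      simp only [coeff_monomial]
      rw [Finset.sum_ite_eq' S μ, if_pos hμ]
    rw [hz, coeff_zero] at hc
    exact hφ hc.symm
  exact Submodule.sum_mem _ fun μ hμ => Submodule.smul_mem _ _ (key μ hμ)

end Pool.Agent.Lib.MP_44a246_ntW
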