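import Mathlib
import Pool.Agent.Lib.MP_44a246_ntW.W12
import Pool.Agent.Lib.MP_44a246_ntW.W13

/-!
# The norm form has small degree: arbitrary coefficients
-/

namespace Pool.Agent.Lib.MP_44a246_ntW

open Polynomial

/-- **The norm of a combination.** -/
theorem norm_all {L : Type*} [Field L] [CharZero L] {n b : ℕ} {A : L[X][X]} (hA : Irreducible A)
    (hm : A.natDegree ≠ 0) (hb : ∀ i, (A.coeff i).natDegree ≤ b)
    (D : Fin (n + 1) → Derivation ℤ L L) (hE : ∀ i j, A ∣ EE (D i) (D j) A)
    (c : Fin (n + 1) → L) :
    ∃ H : L[X], H.natDegree ≤ b ∧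
      A.leadingCoeff * resultant A (Qc D A c) A.natDegree A.natDegree =
        resultant A (derivative A) A.natDegree A.natDegree * H := by
  -- `W = {s : L[X] | ∃ H, natDegree H ≤ b ∧ s = res A A_Y * H}` is an `L`-subspace of `L[X]`. Over
  -- the ring `R = MvPolynomial (Fin (n + 1)) L[X]` let `G = resultant (A.map C)
  -- (∑ j, C (X j) * (-cq (D j) A).map C) m m`; then `res A (Qc D A c)` is the image of `G` under
  -- the evaluation `X j ↦ C (c j)` (`resultant_map_map`), i.e.
  -- `∑ μ ∈ G.support, (∏ j, c j ^ μ j) • G.coeff μ` (`MvPolynomial.eval_eq'`). Apply `interpol` with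
  -- `v μ = lc * G.coeff μ` and `norm_nat`.
  classical
  set m := A.natDegree with hmd
  set r : L[X] := resultant A (derivative A) m m with hr
  let W : Submodule L L[X] := (Polynomial.degreeLE L (b : WithBot ℕ)).map (LinearMap.mulLeft L r)
  have hW : ∀ s : L[X], s ∈ W ↔ ∃ H : L[X], H.natDegree ≤ b ∧ s = r * H := by
    intro s
    rw [Submodule.mem_map]
    constructor
    · rintro ⟨H, hH, rfl⟩
      rw [Polynomial.mem_degreeLE, ← Polynomial.natDegree_le_iff_degree_le] at hH
      exact ⟨H, hH, rfl⟩
    · rintro ⟨H, hH, rfl⟩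
      refine ⟨H, ?_, rfl⟩
      rw [Polynomial.mem_degreeLE, ← Polynomial.natDegree_le_iff_degree_le]
      exact hH
  let G : MvPolynomial (Fin (n + 1)) L[X] := resultant (A.map MvPolynomial.C)
    (∑ j, C (MvPolynomial.X j) * (-cq (D j) A).map MvPolynomial.C) m m
  have hG : ∀ c : Fin (n + 1) → L, A.leadingCoeff * resultant A (Qc D A c) m m =
      ∑ μ ∈ G.support, (∏ j, c j ^ μ j) • (A.leadingCoeff * G.coeff μ) := by
    intro c
    have h1 : resultant A (Qc D A c) m m = MvPolynomial.eval (fun j => C (c j)) G := by
      show _ = MvPolynomial.eval (fun j => C (c j)) (resultant _ _ m m)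
      rw [← resultant_map_map]
      congr 1
      · rw [Polynomial.map_map]
        have : (MvPolynomial.eval fun j => C (c j)).comp MvPolynomial.C = RingHom.id L[X] := by
          ext x <;> simp
        rw [this, Polynomial.map_id]
      · rw [Polynomial.map_sum]
        unfold Qc
        refine Finset.sum_congr rfl fun j _ => ?_
        rw [Polynomial.map_mul, Polynomial.map_C, MvPolynomial.eval_X, Polynomial.map_map]
        have : (MvPolynomial.eval fun j => C (c j)).comp MvPolynomial.C = RingHom.id L[X] := by
          ext x <;> simp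
        rw [this, Polynomial.map_id]
    rw [h1, MvPolynomial.eval_eq', Finset.mul_sum]
    refine Finset.sum_congr rfl fun μ _ => ?_
    rw [Polynomial.smul_eq_C_mul, map_prod]
    simp only [map_pow]
    ring
  have hkey := interpol W G.support (fun μ => A.leadingCoeff * G.coeff μ) (by
    intro c'
    rw [← hG (fun j => (c' j : L)), hW]
    exact norm_nat hA hm hb D hE c') c
  rw [← hG c, hW] at hkey
  exact hkey

end Pool.Agent.Lib.MP_44a246_ntW
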