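import Mathlib

/-!
# The resultant of polynomials which have a common factor at a point
-/

namespace Pool.Agent.Lib.MP_44a246_ntW

open Polynomial

/-- If `A` divides `Q` after the specialisation `X = t`, and `A` does not lose degree, then
`(X - t) ^ m` divides the resultant. -/
theorem dvd_res {L : Type*} [Field L] {A Q : L[X][X]} (hQ : Q.natDegree ≤ A.natDegree) {t : L}
    (ht : A.leadingCoeff.eval t ≠ 0) (h : A.map (evalRingHom t) ∣ Q.map (evalRingHom t)) :
    (X - C t) ^ A.natDegree ∣ resultant A Q A.natDegree A.natDegree := by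
  -- `Q(t, Y) = q A(t, Y)` with `natDegree q = 0`, `q = C c`: every coefficient of
  -- `Q - C (C c) * A` vanishes at `t`, so `Q = A * C (C c) + C (X - C t) * R` with
  -- `natDegree R ≤ m`. `resultant_add_mul_right` (`p = C (C c)`) and `resultant_C_mul_right`.
  have hl : (evalRingHom t) A.leadingCoeff ≠ 0 := ht
  have hd : (A.map (evalRingHom t)).natDegree = A.natDegree :=
    natDegree_map_of_leadingCoeff_ne_zero _ hl
  have hA0 : A.map (evalRingHom t) ≠ 0 := by
    intro h0
    apply hl
    have := congrArg (fun P => P.coeff A.natDegree) h0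
    simpa only [coeff_map, coeff_zero, coeff_natDegree] using this
  obtain ⟨c, hc⟩ : ∃ c : L, Q.map (evalRingHom t) = A.map (evalRingHom t) * C c := by
    obtain ⟨q, hq⟩ := h
    by_cases hq0 : q = 0
    · exact ⟨0, by rw [hq, hq0, C_0]⟩
    · have h1 : (A.map (evalRingHom t) * q).natDegree = A.natDegree + q.natDegree := by
        rw [natDegree_mul hA0 hq0, hd]
      have h2 : (Q.map (evalRingHom t)).natDegree ≤ A.natDegree := natDegree_map_le.trans hQ
      rw [hq, h1] at h2
      have h3 : q.natDegree = 0 := by omega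
      exact ⟨q.coeff 0, by rw [hq, ← eq_C_of_natDegree_eq_zero h3]⟩
  have hS : (Q - A * C (C c)).map (evalRingHom t) = 0 := by
    rw [Polynomial.map_sub, Polynomial.map_mul, hc, map_C, coe_evalRingHom, eval_C, sub_self]
  have hdvd : C (X - C t) ∣ Q - A * C (C c) := by
    rw [C_dvd_iff_dvd_coeff]
    intro i
    rw [dvd_iff_isRoot]
    have h4 := congrArg (fun P => P.coeff i) hS
    simpa [coeff_map] using h4
  obtain ⟨R, hR⟩ := hdvd
  have hQ' : Q = C (X - C t) * R + A * C (C c) := by
    rw [← hR]; ring
  rw [hQ', resultant_add_mul_right _ _ _ _ _ (by simp) le_rfl, resultant_C_mul_right]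
  exact dvd_mul_right _ _

end Pool.Agent.Lib.MP_44a246_ntW
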