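import Mathlib
import Pool.Agent.Lib.MP_44a246_ntW.W14
import Pool.Agent.Lib.MP_44a246_ntW.W15

/-!
# A combination with many common factors vanishes
-/

namespace Pool.Agent.Lib.MP_44a246_ntW

open Polynomial

/-- Over a factorial ring: an irreducible polynomial of positive degree divides `Q` if the resultant
of size `(m, N)` vanishes. -/
theorem dvd_of_res {L : Type*} [Field L] [CharZero L] {A Q : L[X][X]} (hA : Irreducible A)
    (hm : A.natDegree ≠ 0) {N : ℕ} (hQ : Q.natDegree ≤ N)
    (h : resultant A Q A.natDegree N = 0) : A ∣ Q := by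
  have hprim : A.IsPrimitive := hA.isPrimitive hm
  have hinj : Function.Injective (algebraMap L[X] (FractionRing L[X])) :=
    IsFractionRing.injective _ _
  have hirr : Irreducible (A.map (algebraMap L[X] (FractionRing L[X]))) :=
    hprim.irreducible_iff_irreducible_map_fraction_map.mp hA
  apply hprim.dvd_of_fraction_map_dvd_fraction_map (K := FractionRing L[X])
  obtain ⟨k, hk⟩ := Nat.exists_eq_add_of_le hQ
  have h1 : resultant (A.map (algebraMap L[X] (FractionRing L[X])))
      (Q.map (algebraMap L[X] (FractionRing L[X]))) A.natDegree N = 0 := by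
    rw [resultant_map_map, h, map_zero]
  rw [hk, resultant_add_right_deg _ _ _ _ _ natDegree_map_le, mul_eq_zero] at h1
  have h2 : (A.map (algebraMap L[X] (FractionRing L[X]))).coeff A.natDegree ^ k ≠ 0 := by
    apply pow_ne_zero
    rw [coeff_map]
    intro h0
    rw [map_eq_zero_iff _ hinj, coeff_natDegree, leadingCoeff_eq_zero] at h0
    exact hA.ne_zero h0
  have h3 := h1.resolve_left h2
  have e1 : (A.map (algebraMap L[X] (FractionRing L[X]))).natDegree = A.natDegree :=
    natDegree_map_eq_of_injective hinj A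
  have e2 : (Q.map (algebraMap L[X] (FractionRing L[X]))).natDegree = Q.natDegree :=
    natDegree_map_eq_of_injective hinj Q
  rw [← e1, ← e2, resultant_eq_zero_iff] at h3
  by_contra hnd
  exact h3.2 ((hirr.coprime_iff_not_dvd).mpr hnd)

theorem combination_zero {L : Type*} [Field L] [CharZero L] {n b : ℕ} {A : L[X][X]}
    (hA : Irreducible A) (hm : A.natDegree ≠ 0) (hb : ∀ i, (A.coeff i).natDegree ≤ b)
    (hlc : A.leadingCoeff.Monic) (D : Fin (n + 1) → Derivation ℤ L L)
    (hE : ∀ i j, A ∣ EE (D i) (D j) A) (c : Fin (n + 1) → L) (T : Finset L)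
    (hT : b < A.natDegree * T.card) (hT1 : ∀ t ∈ T, A.leadingCoeff.eval t ≠ 0)
    (hT2 : ∀ t ∈ T, (resultant A (derivative A) A.natDegree A.natDegree).eval t ≠ 0)
    (hT3 : ∀ t ∈ T, A.map (evalRingHom t) ∣ (Qc D A c).map (evalRingHom t)) :
    Qc D A c = 0 := by
  have hA0 : A ≠ 0 := hA.ne_zero
  have hcoef : ∀ i, (Qc D A c).coeff i = ∑ j, C (c j) * -cp (D j) (A.coeff i) := by
    intro i
    unfold Qc
    rw [finsetSum_coeff]
    refine Finset.sum_congr rfl fun j _ => ?_
    rw [coeff_C_mul, coeff_neg, cq_coeff]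
  have hdeg : (Qc D A c).natDegree ≤ A.natDegree := by
    rw [natDegree_le_iff_coeff_eq_zero]
    intro i hi
    rw [hcoef]
    apply Finset.sum_eq_zero
    intro j _
    rw [coeff_eq_zero_of_natDegree_lt hi, cp_zero', neg_zero, mul_zero]
  obtain ⟨H, hH, hlcH⟩ := norm_all hA hm hb D hE c
  have hdvd : ∀ t ∈ T, (X - C t) ^ A.natDegree ∣ H := by
    intro t ht
    have h1 := dvd_res hdeg (hT1 t ht) (hT3 t ht)
    have h2 : (X - C t) ^ A.natDegree ∣
        resultant A (derivative A) A.natDegree A.natDegree * H := by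
      rw [← hlcH]
      exact h1.mul_left _
    have h3 : IsCoprime ((X - C t) ^ A.natDegree)
        (resultant A (derivative A) A.natDegree A.natDegree) := by
      apply IsCoprime.pow_left
      rw [(irreducible_X_sub_C t).coprime_iff_not_dvd, dvd_iff_isRoot]
      exact hT2 t ht
    exact h3.dvd_of_dvd_mul_left h2
  have hprod : ∏ t ∈ T, (X - C t) ^ A.natDegree ∣ H := by
    apply Finset.prod_dvd_of_coprime
    · intro s _ t _ hst
      apply IsCoprime.pow
      apply isCoprime_X_sub_C_of_isUnit_sub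
      exact (sub_ne_zero.mpr hst).isUnit
    · exact hdvd
  have hH0 : H = 0 := by
    by_contra hne
    have h1 := natDegree_le_of_dvd hprod hne
    have h2 : (∏ t ∈ T, (X - C t) ^ A.natDegree).natDegree = A.natDegree * T.card := by
      rw [natDegree_prod_of_monic _ _ (fun t _ => (monic_X_sub_C t).pow _)]
      simp [mul_comm]
    omega
  rw [hH0, mul_zero, mul_eq_zero] at hlcH
  have hres := hlcH.resolve_left hlc.ne_zero
  obtain ⟨q, hq⟩ := dvd_of_res hA hm hdeg hres
  by_cases hq0 : q = 0
  · rw [hq, hq0, mul_zero]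
  exfalso
  have hnd : q.natDegree = 0 := by
    rw [hq, natDegree_mul hA0 hq0] at hdeg
    omega
  obtain ⟨q₀, rfl⟩ := natDegree_eq_zero.mp hnd
  have hq₀ : q₀ ≠ 0 := by
    rintro rfl
    exact hq0 (by rw [C_0])
  have h1 : (Qc D A c).coeff A.natDegree = A.leadingCoeff * q₀ := by
    rw [hq, coeff_mul_C, coeff_natDegree]
  rw [hcoef, coeff_natDegree] at h1
  have h2 : (∑ j, C (c j) * -cp (D j) A.leadingCoeff).degree < A.leadingCoeff.degree := by
    have hbot : (⊥ : WithBot ℕ) < A.leadingCoeff.degree :=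
      bot_lt_iff_ne_bot.mpr (mt degree_eq_bot.mp hlc.ne_zero)
    refine lt_of_le_of_lt (degree_sum_le _ _) ?_
    rw [Finset.sup_lt_iff hbot]
    intro j _
    rw [← smul_eq_C_mul]
    refine lt_of_le_of_lt (degree_smul_le _ _) ?_
    rw [degree_neg]
    exact degree_cp_lt (D j) hlc
  rw [h1, degree_mul] at h2
  have h3 : (0 : WithBot ℕ) ≤ q₀.degree := zero_le_degree_iff.mpr hq₀
  exact absurd h2 (not_lt.mpr (le_add_of_nonneg_right h3))

end Pool.Agent.Lib.MP_44a246_ntW
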