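import Mathlib
import Pool.Agent.Lib.MP_44a246_ntW.W16

/-!
# The span theorem
-/

namespace Pool.Agent.Lib.MP_44a246_ntW

open Polynomial Module

/-- the linear map `c ↦ Qc D A c` -/
noncomputable def QcL {L : Type*} [Field L] {n : ℕ} (D : Fin (n + 1) → Derivation ℤ L L)
    (A : L[X][X]) : (Fin (n + 1) → L) →ₗ[L] L[X][X] where
  toFun := Qc D A
  map_add' := by
    intro c c'
    unfold Qc
    rw [← Finset.sum_add_distrib]
    refine Finset.sum_congr rfl fun j _ => ?_
    rw [Pi.add_apply, C_add, C_add, add_mul]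
  map_smul' := by
    intro r c
    unfold Qc
    rw [RingHom.id_apply, Finset.smul_sum]
    refine Finset.sum_congr rfl fun j _ => ?_
    rw [Pi.smul_apply, smul_eq_mul, C_mul, C_mul, mul_assoc]
    ext i l
    rw [coeff_C_mul, coeff_C_mul, coeff_smul, coeff_smul, smul_eq_mul]

theorem finrank_range_QcL {L : Type*} [Field L] [CharZero L] {n b : ℕ} {A : L[X][X]}
    (hA : Irreducible A) (hm : A.natDegree ≠ 0) (hmb : A.natDegree ≤ b)
    (hb : ∀ i, (A.coeff i).natDegree ≤ b) (hlc : A.leadingCoeff.Monic)
    (D : Fin (n + 1) → Derivation ℤ L L) (hE : ∀ i j, A ∣ EE (D i) (D j) A) :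
    finrank L (LinearMap.range (QcL D A)) ≤ 2 * b := by
  classical
  set m := A.natDegree with hmdef
  have hA0 : A ≠ 0 := hA.ne_zero
  have hlc0 : A.leadingCoeff ≠ 0 := leadingCoeff_ne_zero.mpr hA0
  -- the discriminant does not vanish
  have hder : (derivative A).natDegree ≤ m := (natDegree_derivative_le A).trans (Nat.sub_le _ _)
  have hres : resultant A (derivative A) m m ≠ 0 := by
    intro h0
    have h1 : A ∣ derivative A := dvd_of_res hA hm hder h0
    have h2 : derivative A ≠ 0 := by
      intro h3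
      exact hm (natDegree_eq_zero_of_derivative_eq_zero h3)
    have h3 := natDegree_le_of_dvd h1 h2
    have h4 := natDegree_derivative_lt hm
    omega
  set s : L[X] := A.leadingCoeff * resultant A (derivative A) m m with hs
  have hs0 : s ≠ 0 := mul_ne_zero hlc0 hres
  -- the points
  have hinf : ((Set.univ : Set L) \ (s.roots.toFinset : Set L)).Infinite :=
    Set.infinite_univ.diff (Finset.finite_toSet _)
  obtain ⟨T, hTs, hTc⟩ := hinf.exists_subset_card_eq (b / m + 1)
  have hTr : ∀ t ∈ T, s.eval t ≠ 0 := by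
    intro t ht h0
    have h1 := hTs (Finset.mem_coe.mpr ht)
    apply h1.2
    rw [Finset.mem_coe, Multiset.mem_toFinset, mem_roots hs0]
    exact h0
  have hT1 : ∀ t ∈ T, A.leadingCoeff.eval t ≠ 0 := by
    intro t ht h0
    apply hTr t ht
    rw [hs, eval_mul, h0, zero_mul]
  have hT2 : ∀ t ∈ T, (resultant A (derivative A) m m).eval t ≠ 0 := by
    intro t ht h0
    apply hTr t ht
    rw [hs, eval_mul, h0, mul_zero]
  have hmpos : 0 < m := Nat.pos_of_ne_zero hm
  have hbT : b < m * T.card := by
    rw [hTc]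
    exact Nat.lt_mul_div_succ b hmpos
  have hTb : T.card * m ≤ 2 * b := by
    rw [hTc, add_mul, one_mul]
    have := Nat.div_mul_le_self b m
    omega
  -- the specialisations
  have hdeg : ∀ t ∈ T, (A.map (evalRingHom t)).natDegree = m := by
    intro t ht
    exact natDegree_map_of_leadingCoeff_ne_zero _ (by rw [coe_evalRingHom]; exact hT1 t ht)
  let M : T → Type _ := fun t => L[X] ⧸ Ideal.span {A.map (evalRingHom (t : L))}
  have hfr : ∀ t : T, finrank L (L[X] ⧸ Ideal.span {A.map (evalRingHom (t : L))}) = m := by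
    intro t
    rw [finrank_quotient_span_eq_natDegree, hdeg t.1 t.2]
  have hfin : ∀ t : T, Module.Finite L (L[X] ⧸ Ideal.span {A.map (evalRingHom (t : L))}) := by
    intro t
    apply Module.finite_of_finrank_pos
    rw [hfr t]
    exact hmpos
  let Ψ : (Fin (n + 1) → L) →ₗ[L] (∀ t : T, L[X] ⧸ Ideal.span {A.map (evalRingHom (t : L))}) :=
    LinearMap.pi fun t =>
      ((Ideal.Quotient.mkₐ L (Ideal.span {A.map (evalRingHom (t : L))})).toLinearMap ∘ₗ
        (mapAlgHom (aeval (t : L) : L[X] →ₐ[L] L)).toLinearMap) ∘ₗ QcL D A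
  have hker : LinearMap.ker Ψ ≤ LinearMap.ker (QcL D A) := by
    intro c hc
    rw [LinearMap.mem_ker] at hc ⊢
    change Qc D A c = 0
    refine combination_zero hA hm hb hlc D hE c T hbT hT1 hT2 fun t ht => ?_
    have h1 := congrFun hc ⟨t, ht⟩
    have h2 : Ideal.Quotient.mk (Ideal.span {A.map (evalRingHom t)})
        ((Qc D A c).map (evalRingHom t)) = 0 := by
      have h3 : (mapAlgHom (aeval t : L[X] →ₐ[L] L)) (Qc D A c) =
          (Qc D A c).map (evalRingHom t) := by
        rw [coe_mapAlgHom]
        rw [coe_aeval_eq_evalRingHom]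
      rw [← h3]
      exact h1
    rwa [Ideal.Quotient.eq_zero_iff_mem, Ideal.mem_span_singleton] at h2
  have h1 := LinearMap.finrank_range_add_finrank_ker Ψ
  have h2 := LinearMap.finrank_range_add_finrank_ker (QcL D A)
  have h3 : finrank L (LinearMap.ker Ψ) ≤ finrank L (LinearMap.ker (QcL D A)) :=
    Submodule.finrank_mono hker
  have h4 : finrank L (LinearMap.range Ψ) ≤ T.card * m := by
    refine (Submodule.finrank_le _).trans ?_
    rw [Module.finrank_pi_fintype]
    simp only [hfr]
    rw [Finset.sum_const, Finset.card_univ, Fintype.card_coe, smul_eq_mul]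
  omega

end Pool.Agent.Lib.MP_44a246_ntW
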