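import Mathlib
import Pool.Agent.Lib.MP_44a246_ntW.W17

/-!
# The span theorem: final form
-/

namespace Pool.Agent.Lib.MP_44a246_ntW

open Polynomial Module

/-- **The span theorem.** Let `A` be an irreducible plane curve, of degree at most `b` in both
variables, and `D j` derivations of the field of coefficients which kill the parametrisation
`- D i A / A_Y`. Then the polynomials `D j A` span a space of dimension at most `2 b`. -/
theorem span_theorem {L : Type*} [Field L] [CharZero L] {n b : ℕ} {A : L[X][X]}
    (hA : Irreducible A) (hm : A.natDegree ≠ 0) (hmb : A.natDegree ≤ b)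
    (hb : ∀ i, (A.coeff i).natDegree ≤ b) (hlc : A.leadingCoeff.Monic)
    (D : Fin (n + 1) → Derivation ℤ L L) (hE : ∀ i j, A ∣ EE (D i) (D j) A) :
    ∃ (I : Finset (Fin (n + 1))) (lam : Fin (n + 1) → Fin (n + 1) → L), I.card ≤ 2 * b ∧
      ∀ j, cq (D j) A = ∑ i ∈ I, C (C (lam j i)) * cq (D i) A := by
  classical
  have hsm : ∀ (r : L) (P : L[X][X]), C (C r) * P = r • P := by
    intro r P
    ext i l
    rw [coeff_C_mul, coeff_C_mul, coeff_smul, coeff_smul, smul_eq_mul]
  let v : Fin (n + 1) → L[X][X] := fun j => cq (D j) A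
  have hrange : LinearMap.range (QcL D A) = Submodule.span L (Set.range v) := by
    ext P
    rw [Submodule.mem_span_range_iff_exists_fun, LinearMap.mem_range]
    constructor
    · rintro ⟨c, rfl⟩
      refine ⟨fun j => - c j, ?_⟩
      change _ = Qc D A c
      unfold Qc
      refine Finset.sum_congr rfl fun j _ => ?_
      rw [hsm, smul_neg, neg_smul]
    · rintro ⟨c, rfl⟩
      refine ⟨fun j => - c j, ?_⟩
      change Qc D A _ = _
      unfold Qc
      refine Finset.sum_congr rfl fun j _ => ?_
      rw [hsm, smul_neg, neg_smul, neg_neg]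
  obtain ⟨κ, a, ha, hspan, hli⟩ := exists_linearIndependent' L v
  have hfin : Finite κ := Finite.of_injective a ha
  have hft : Fintype κ := Fintype.ofFinite κ
  have hmem : ∀ j, ∃ c : κ → L, ∑ k, c k • v (a k) = v j := by
    intro j
    have h1 : v j ∈ Submodule.span L (Set.range (v ∘ a)) := by
      rw [hspan]
      exact Submodule.subset_span ⟨j, rfl⟩
    rw [Submodule.mem_span_range_iff_exists_fun] at h1
    exact h1
  choose c hc using hmem
  refine ⟨Finset.univ.image a, fun j => Function.extend a (c j) 0, ?_, ?_⟩
  · rw [Finset.card_image_of_injective _ ha, Finset.card_univ]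
    have h1 := finrank_span_eq_card hli
    rw [hspan, ← hrange] at h1
    rw [← h1]
    exact finrank_range_QcL hA hm hmb hb hlc D hE
  · intro j
    rw [Finset.sum_image fun x _ y _ h => ha h]
    have h1 : cq (D j) A = v j := rfl
    rw [h1, ← hc j]
    refine Finset.sum_congr rfl fun k _ => ?_
    change _ = C (C (Function.extend a (c j) 0 (a k))) * cq (D (a k)) A
    rw [ha.extend_apply, hsm]

end Pool.Agent.Lib.MP_44a246_ntW
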