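import Mathlib
import Pool.Agent.Lib.MP_44a246_ntW.W18
import Pool.Agent.Lib.MP_44a246_ntW.W21
import Pool.Agent.Lib.MP_44a246_ntW.W22
import Pool.Agent.Lib.MP_44a246_ntW.W23
import Pool.Agent.Lib.MP_44a246_ntW.W24

/-!
# Step B with the span theorem
-/

namespace Pool.Agent.Lib.MP_44a246_ntW

open Pool.Agent.Lib.MP_44a246_nt
open Pool.Agent.Lib.MP_44a246_ntL
open Pool.Agent.Lib.MP_44a246_ntS
open Pool.Agent.Lib.MP_e52354_nt
open WithZero Module Polynomial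

variable {κ L : Type*} [Field κ] [IsAlgClosed κ] [CharZero κ] [Field L] [CharZero L]
  [Algebra κ L]

/-- the dimension of the space of the rows -/
theorem finrank_V_span (h : IsFF κ L) {n d : ℕ} (X : Dat κ (L := L) n d) {b : ℕ} {A : L[X][X]}
    (hA : Crv X b A) (hlc : A.leadingCoeff.Monic)
    (hspan : 9 * (b : ℤ) * gh κ A + 3 * b * X.Δ < height κ X.x) :
    finrank L (X.V b A) ≤ (2 * b + 1) * (b + 1) ^ 2 + 2 * b * (n + 1) + 1 := by
  obtain ⟨I, lam, hI, hlam⟩ := span_theorem (n := n) (b := b) hA.irr hA.deg hA.box.1 hA.box.2 hlc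
    X.E (fun i j => dvd_EE X hA h hspan i j)
  refine (finrank_V_le X I lam hlam).trans ?_
  have h1 : (I.card + 1) * (b + 1) ^ 2 ≤ (2 * b + 1) * (b + 1) ^ 2 :=
    Nat.mul_le_mul_right _ (by omega)
  have h2 : I.card * (n + 1) ≤ 2 * b * (n + 1) := Nat.mul_le_mul_right _ hI
  omega

/-- **Step B** with the span theorem. -/
theorem stepB_span (h : IsFF κ L) {n d : ℕ} (X : Dat κ (L := L) n d) {b s N : ℕ} {A : L[X][X]}
    (hA : Crv X b A) (hlc : A.leadingCoeff.Monic)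
    (hN : (2 * b + 1) * (b + 1) ^ 2 + 2 * b * (n + 1) + 1 ≤ N) (hs : 32 * N ≤ s ^ 2)
    (hsd : 8 * s ≤ d) (hs1 : 1 ≤ s) (hΔ : 4 * N * X.Δ ≤ height κ X.x) (hpos : 0 < height κ X.x)
    (hspan : 9 * (b : ℤ) * gh κ A + 3 * b * X.Δ < height κ X.x)
    (hη : 16 * (3 * height κ X.x + 4 * N * gh κ A) < d * height κ X.x)
    (hbez : 28 * N * s * gh κ A + 16 * b * (3 * height κ X.x + 4 * N * gh κ A) <
      7 * s ^ 2 * height κ X.x) :
    gh κ A * s ^ 2 ≤ 10 * height κ X.x := by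
  have hV := (finrank_V_span h X hA hlc hspan).trans hN
  have hΔ0 := X.Δ_nonneg
  have hN1 : (1 : ℤ) ≤ N := by
    have : 1 ≤ N := by omega
    exact_mod_cast this
  have hht : ht κ (X.V b A) ≤ 3 * height κ X.x + 4 * N * gh κ A := by
    have h1 := ht_V_le X hA h hV
    have h2 : X.Δ ≤ N * X.Δ := by nlinarith
    nlinarith
  obtain ⟨a, A', ha, hA'0, hA'h, hA'e, hA'b⟩ :=
    stepB_gen h X (X.xi_mem_V hA) hV hht hs hsd hs1 hpos hη
  exact stepB_fin h X hA hs hs1 hpos hbez ha hA'0 hA'h hA'e hA'b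

end Pool.Agent.Lib.MP_44a246_ntW
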